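import Pool.Agent.Lib.MP_f6c7cf_nt.SI.Tower
import Pool.Agent.Lib.MP_639284_nt.RH

/-! Twisted point counts on the tower bound the sums of characters modulo `X ^ m`. -/

namespace Pool.Agent.Lib.MP_f6c7cf_nt.SI

open Polynomial Finset Filter
open Pool.Agent.Lib.MP_639284_nt

section rel

variable {B : Type} [CommRing B] [CharP B 2] {i : ℕ} {z : B} {Γ : B[X]}

theorem rel_iff : Rel i z Γ ↔
    Γ.coeff 0 = 1 ∧ X ^ (i + 1) ∣ Γ.map (frobenius B 2) - (1 + C z * X) * Γ := by
  refine and_congr_right fun h0 => ?_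
  have e : ∀ j, (Γ.map (frobenius B 2) - (1 + C z * X) * Γ).coeff (j + 1)
      = Γ.coeff (j + 1) ^ 2 - (z * Γ.coeff j + Γ.coeff (j + 1)) := fun j => by
    simp [add_mul, mul_assoc, coeff_X_mul, frobenius_def, add_comm]
  rw [X_pow_dvd_iff]
  constructor
  · rintro h (_ | j) hj
    · simp [h0]
    · rw [e, h j (by omega), sub_self]
  · intro h j hj
    rw [← sub_eq_zero, ← e, h _ (by omega)]

theorem Rel.iter (h : Rel i z Γ) (s : ℕ) : X ^ (i + 1) ∣
    Γ.map (iterateFrobenius B 2 s) - (∏ j ∈ range s, (1 + C (z ^ 2 ^ j) * X)) * Γ := by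
  induction s with
  | zero => simp
  | succ s ih =>
    have h1 := Polynomial.map_dvd (iterateFrobenius B 2 s) (rel_iff.1 h).2
    simp only [Polynomial.map_pow, map_X, Polynomial.map_sub, Polynomial.map_mul,
      Polynomial.map_add, Polynomial.map_one, map_C, Polynomial.map_map, iterateFrobenius_def] at h1
    rw [← iterateFrobenius_one, ← iterateFrobenius_add] at h1
    convert dvd_add h1 (ih.mul_left (1 + C (z ^ 2 ^ s) * X)) using 1
    rw [prod_range_succ]
    ring

theorem Rel.mul [Algebra (ZMod 2) B] (h : Rel i z Γ) {P : (ZMod 2)[X]} (hP : P.coeff 0 = 1) :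
    Rel i z (Γ * P.map (algebraMap _ B)) := by
  refine rel_iff.2 ⟨by simp [h.1, hP], ?_⟩
  rw [Polynomial.map_mul, Polynomial.map_map,
    Subsingleton.elim ((frobenius B 2).comp (algebraMap _ B)) (algebraMap _ B), ← mul_assoc,
    ← sub_mul]
  exact (rel_iff.1 h).2.mul_right _

end rel

theorem exists_rel {Ω : Type} [Field Ω] [IsAlgClosed Ω] (i : ℕ) (z : Ω) : ∃ Γ, Rel i z Γ := by
  induction i with
  | zero => exact ⟨1, by simp, by simp⟩
  | succ i ih =>
    obtain ⟨Γ, h0, h⟩ := ih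
    obtain ⟨y, hy⟩ := IsAlgClosed.exists_root (X ^ 2 - (C (z * Γ.coeff i) + X) : Polynomial Ω) (by
      rw [degree_sub_eq_left_of_degree_lt (by rw [degree_X_pow]; compute_degree!), degree_X_pow]
      simp)
    refine ⟨Γ.update (i + 1) y, by simp [coeff_update_apply, h0], fun j hj => ?_⟩
    rcases (Nat.lt_succ_iff.1 hj).eq_or_lt with rfl | hj'
    · simpa [coeff_update_apply, sub_eq_zero] using hy
    · simpa [coeff_update_apply, hj'.ne, show j ≠ i + 1 by omega] using h j hj'

/-- the algebraic closure of the field with two elements -/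
abbrev Om : Type := AlgebraicClosure (ZMod 2)

open scoped Classical in
/-- the field with `2 ^ s` elements -/
noncomputable def FQ (s : ℕ) : Finset Om := (X ^ 2 ^ s - X : Om[X]).roots.toFinset

theorem mem_FQ {s : ℕ} (hs : 0 < s) {x : Om} : x ∈ FQ s ↔ x ^ 2 ^ s = x := by
  simp [FQ, FiniteField.X_pow_card_sub_X_ne_zero Om (Nat.one_lt_two_pow hs.ne'), sub_eq_zero]

theorem card_FQ {s : ℕ} (hs : 0 < s) : #(FQ s) = 2 ^ s := by
  classical
  rw [FQ, Multiset.toFinset_card_of_nodup
    (nodup_roots (galois_poly_separable 2 _ (dvd_pow_self 2 hs.ne'))),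
    ← (IsAlgClosed.splits _).natDegree_eq_card_roots,
    FiniteField.X_pow_card_sub_X_natDegree_eq Om (Nat.one_lt_two_pow hs.ne')]

/-- the characteristic polynomial of an element of the field with `2 ^ s` elements -/
noncomputable def cp (s : ℕ) (x : Om) : (ZMod 2)[X] :=
  minpoly (ZMod 2) x ^ (s / (minpoly (ZMod 2) x).natDegree)

theorem integral (x : Om) : IsIntegral (ZMod 2) x := Algebra.IsIntegral.isIntegral x

theorem map_cp {s : ℕ} {x : Om} (hx : x ^ 2 ^ s = x) :
    (cp s x).map (algebraMap _ Om) = ∏ j ∈ range s, (X - C (x ^ 2 ^ j)) := by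
  set P : Om[X] := ∏ j ∈ range s, (X - C (x ^ 2 ^ j)) with hP
  have hm : P.Monic := monic_prod_of_monic _ _ fun j _ => monic_X_sub_C _
  have h1 : P.map (frobenius Om 2) = P := by
    have := (prod_range_succ' (fun j => (X - C (x ^ 2 ^ j) : Om[X])) s).symm.trans
      (prod_range_succ _ s)
    simp only [hx, pow_zero, pow_one] at this
    rw [hP, Polynomial.map_prod, ← mul_right_cancel₀ (X_sub_C_ne_zero x) this]
    exact prod_congr rfl fun j _ => by
      rw [Polynomial.map_sub, map_X, map_C, frobenius_def, ← pow_mul, ← pow_succ]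
  have h2 : P ∈ lifts (algebraMap (ZMod 2) Om) := (lifts_iff_coeff_lifts P).2 fun n => by
    have : P.coeff n * (P.coeff n - 1) = 0 := by
      have := congrArg (coeff · n) h1
      simp only [coeff_map, frobenius_def] at this
      linear_combination this
    rcases mul_eq_zero.1 this with h | h
    · exact ⟨0, by rw [h, map_zero]⟩
    · exact ⟨1, by rw [sub_eq_zero.1 h, map_one]⟩
  obtain ⟨Q, q1, q2, q3⟩ := lifts_and_natDegree_eq_and_monic h2 hm
  have h3 : Q ∣ minpoly (ZMod 2) x ^ s := by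
    rw [← map_dvd_map' (algebraMap (ZMod 2) Om), q1, Polynomial.map_pow, ← card_range s,
      ← prod_const]
    refine prod_dvd_prod_of_dvd _ _ fun j _ => ?_
    rw [dvd_iff_isRoot, IsRoot, eval_map_algebraMap, ← iterateFrobenius_def, aeval_def,
      ← Subsingleton.elim ((iterateFrobenius Om 2 j).comp (algebraMap _ Om)) (algebraMap _ Om),
      ← hom_eval₂, ← aeval_def, minpoly.aeval, map_zero]
  obtain ⟨e, -, he⟩ := (dvd_prime_pow (minpoly.prime (integral x)) s).1 h3
  have h4 := eq_of_monic_of_associated q3 ((minpoly.monic (integral x)).pow e) he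
  have h5 : s = e * (minpoly (ZMod 2) x).natDegree := by
    rw [← natDegree_pow, ← h4, q2, hP, natDegree_prod_of_monic _ _ fun j _ => monic_X_sub_C _]
    simp only [natDegree_X_sub_C]
    simp
  rw [cp, ← q1, h4]
  congr 2
  rw [h5, Nat.mul_div_cancel _ (minpoly.natDegree_pos (integral x))]

theorem map_cp' {s : ℕ} {x : Om} (hx : x ^ 2 ^ s = x) (h0 : x ≠ 0) :
    (cp s x).map (algebraMap _ Om) = ∏ j ∈ range s, (1 + C (x⁻¹ ^ 2 ^ j) * X) := by
  have h1 : ∏ j ∈ range s, x ^ 2 ^ j = 1 := by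
    have := (prod_range_succ' (fun j => x ^ 2 ^ j) s).symm.trans (prod_range_succ _ s)
    simp only [hx, pow_zero, pow_one] at this
    have h2 := mul_right_cancel₀ h0 this
    simp only [pow_succ 2, pow_mul, prod_pow] at h2
    exact mul_right_cancel₀ (prod_ne_zero_iff.2 fun j _ => pow_ne_zero _ h0)
      (by rw [← sq, h2, one_mul])
  have h2 : ∏ j ∈ range s, C (x ^ 2 ^ j) = 1 := by rw [← map_prod, h1, C_1]
  refine Eq.trans ?_ ((congrArg (· * _) h2).trans (one_mul _))
  rw [map_cp hx, ← prod_mul_distrib]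
  refine prod_congr rfl fun j _ => ?_
  rw [mul_add, ← mul_assoc, ← C_mul, ← mul_pow, mul_inv_cancel₀ h0, CharTwo.sub_eq_add]
  simp [add_comm]

/-- polynomials modulo `X ^ m` -/
abbrev Rm (m : ℕ) : Type := AdjoinRoot (X ^ m : (ZMod 2)[X])

/-- the class of a polynomial -/
noncomputable abbrev cl (m : ℕ) : (ZMod 2)[X] →+* Rm m := AdjoinRoot.mk _

instance (m : ℕ) : Finite (Rm m) :=
  have := (monic_X_pow (R := ZMod 2) m).finite_adjoinRoot
  Module.finite_of_finite (ZMod 2)

noncomputable instance (m : ℕ) : Fintype (Rm m) := Fintype.ofFinite _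

theorem card_Rm (m : ℕ) : Nat.card (Rm m) = 2 ^ m := by
  have := (monic_X_pow (R := ZMod 2) m).finite_adjoinRoot
  rw [Module.natCard_eq_pow_finrank (K := ZMod 2), Nat.card_zmod,
    (AdjoinRoot.powerBasis' (monic_X_pow m)).finrank]
  simp

theorem isUnit_cl {i : ℕ} {P : (ZMod 2)[X]} : IsUnit (cl (i + 1) P) ↔ P.coeff 0 = 1 := by
  constructor
  · intro h
    obtain ⟨r, hr⟩ := h.exists_right_inv
    obtain ⟨Q, rfl⟩ := AdjoinRoot.mk_surjective r
    rw [← map_mul, ← map_one (cl (i + 1)), AdjoinRoot.mk_eq_mk, X_pow_dvd_iff] at hr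
    have := hr 0 i.succ_pos
    rw [coeff_sub, mul_coeff_zero, coeff_one_zero] at this
    revert this
    generalize P.coeff 0 = a, Q.coeff 0 = b
    decide +revert
  · intro h
    obtain ⟨a, b, hab⟩ := ((irreducible_X.coprime_iff_not_dvd (n := P)).2
      (by simp [X_dvd_iff, h])).pow_left (m := i + 1)
    have := congrArg (cl (i + 1)) hab
    rw [map_add, map_mul, AdjoinRoot.mk_self, mul_zero, zero_add, map_mul, map_one] at this
    exact IsUnit.of_mul_eq_one_right _ this

theorem coeff_cp {s : ℕ} {x : Om} (hx : x ^ 2 ^ s = x) (h0 : x ≠ 0) : (cp s x).coeff 0 = 1 := by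
  have := congrArg (coeff · 0) (map_cp' hx h0)
  simp only [coeff_map, coeff_zero_prod] at this
  exact (algebraMap _ Om).injective (by simpa using this)

open scoped Classical in
theorem count (i : ℕ) : ∃ c : ℕ, ∀ᶠ s in atTop, ∀ r : Rm (i + 1), IsUnit r →
    Nat.card (Rm (i + 1))ˣ * #{x ∈ FQ (s * 2) | cl (i + 1) (cp (s * 2) x) = r}
      ≤ 2 ^ (s * 2) + c * 2 ^ s := by
  obtain ⟨O, _, _, S, z, Γ, h⟩ := tower (ZMod 2) i
  have := S.isDomain
  have : CharP O 2 := charP_of_injective_algebraMap (algebraMap (ZMod 2) O).injective 2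
  refine ⟨2 * #S.G + 1, ?_⟩
  filter_upwards [(tendsto_pow_atTop_atTop_of_one_lt one_lt_two).eventually_gt_atTop
    (#S.G ^ 2 + 3 * #S.G + 1), eventually_gt_atTop 0] with s hs hs0 r hr
  choose rep hrep using AdjoinRoot.mk_surjective (g := (X ^ (i + 1) : (ZMod 2)[X]))
  have hu : ∀ r, IsUnit r → (rep r).coeff 0 = 1 := fun r hr => isUnit_cl.1 (by rwa [hrep])
  obtain ⟨σ, s1, s2⟩ := h.lift O z _ (h.rel.mul (hu r hr))
  have hσ := h.mono O S σ 1 (by simp [s1]) fun j hj => by
    rw [s2 j hj, coeff_mul, one_mul]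
    refine dg_sum_le S _ _ fun p hp => (dg_mul_le S _ _).trans ?_
    have h1 := mem_antidiagonal.1 hp
    have h2 := h.dg j hj
    have h3 := h.dg p.1 (by omega)
    have h4 : 2 ^ (i - j) ≤ 2 ^ (i - p.1) := Nat.pow_le_pow_right two_pos (by omega)
    rw [coeff_map, S.dg_algebraMap]
    omega
  obtain ⟨f1, f2⟩ := rh (ZMod 2) O Om S 2 s σ.toLinearMap (fun u => by
    rcases eq_or_ne u 0 with rfl | h0
    · simp
    · rw [S.deg_eq h0]
      exact degree_le_natDegree.trans (Nat.cast_le.2 ((hσ u).trans_eq (one_mul _)))) hs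
  rw [← pow_mul] at f1 f2
  refine le_trans ?_ f2
  choose Δ hΔ using exists_rel (Ω := Om) i
  choose ψ p1 p2 using fun (u : (Rm (i + 1))ˣ) (x : Om) =>
    h.lift Om x⁻¹ _ ((hΔ x⁻¹).mul (hu u u.isUnit))
  rw [Nat.card_eq_fintype_card, ← card_univ, ← card_product, ← Set.ncard_coe_finset]
  refine Set.ncard_le_ncard_of_injOn (fun p => ψ p.1 p.2) ?_ ?_ f1
  · rintro ⟨u, x⟩ hp
    obtain ⟨h1, h2⟩ := mem_filter.1 (mem_product.1 hp).2
    have hx := (mem_FQ (by omega)).1 h1
    have h0 : x ≠ 0 := by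
      rintro rfl
      have := isUnit_cl.1 (h2 ▸ hr)
      simp [cp, minpoly.zero, hs0.ne'] at this
    let φ : Om →ₐ[ZMod 2] Om := ⟨iterateFrobenius Om 2 (s * 2), fun c => DFunLike.congr_fun
      (Subsingleton.elim ((iterateFrobenius Om 2 (s * 2)).comp (algebraMap _ Om))
        (algebraMap _ Om)) c⟩
    refine fun v => DFunLike.congr_fun (h.ext Om (φ.comp (ψ u x)) ((ψ u x).comp σ) ?_ fun j hj => ?_) v
    · simp [φ, s1, p1, iterateFrobenius_def, hx]
    · set Δ' := Δ x⁻¹ * (rep u).map (algebraMap _ Om)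
      have e1 := ((hΔ x⁻¹).mul (hu u u.isUnit)).iter (s * 2)
      rw [← map_cp' hx h0] at e1
      have e2 : X ^ (i + 1) ∣ Γ.map (ψ u x : O →+* Om) - Δ' :=
        X_pow_dvd_iff.2 fun d hd => by simp [p2 u x d (by omega), Δ']
      have e3 := Polynomial.map_dvd (algebraMap _ Om) (AdjoinRoot.mk_eq_mk.1 (h2.trans (hrep r).symm))
      rw [Polynomial.map_pow, map_X, Polynomial.map_sub] at e3
      have e4 : X ^ (i + 1) ∣ Δ'.map (iterateFrobenius Om 2 (s * 2))
          - (Γ * (rep r).map (algebraMap _ O)).map (ψ u x : O →+* Om) := by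
        rw [Polynomial.map_mul (p := Γ), Polynomial.map_map,
          Subsingleton.elim ((ψ u x : O →+* Om).comp (algebraMap _ O)) (algebraMap _ Om)]
        convert dvd_sub (dvd_add e1 (e3.mul_right Δ')) (e2.mul_right ((rep r).map (algebraMap _ Om)))
          using 1
        ring
      have e5 := X_pow_dvd_iff.1 e4 j (by omega)
      rw [coeff_sub, coeff_map, coeff_map, ← s2 j hj, ← p2 u x j hj, sub_eq_zero] at e5
      exact e5
  · rintro ⟨u, x⟩ - ⟨u', x'⟩ - hp
    simp only at hp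
    obtain rfl : x = x' := inv_injective (by rw [← p1 u x, hp, p1])
    have e1 : X ^ (i + 1) ∣ Δ x⁻¹ * (rep u - rep u').map (algebraMap _ Om) :=
      X_pow_dvd_iff.2 fun d hd => by
        rw [Polynomial.map_sub, mul_sub, coeff_sub, ← p2 u x d (by omega), hp, p2 u' x d (by omega),
          sub_self]
    have e2 := prime_X.pow_dvd_of_dvd_mul_left _ (by simp [X_dvd_iff, (hΔ x⁻¹).1]) e1
    rw [← map_X (algebraMap (ZMod 2) Om), ← Polynomial.map_pow, map_dvd_map',
      ← AdjoinRoot.mk_eq_mk, hrep, hrep] at e2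
    rw [Units.ext e2]

end Pool.Agent.Lib.MP_f6c7cf_nt.SI
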