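import Mathlib

/-! The truncated product kernel on the binary cube. -/

namespace Pool.Agent.Lib.MP_f6c7cf_nt.SI

open Finset

/-- the sign of a bit -/
noncomputable def ep (c : ZMod 2) : ℝ := if c = 0 then 1 else -1

theorem ep_add (c c' : ZMod 2) : ep (c + c') = ep c * ep c' := by
  have : ∀ c : ZMod 2, c = 0 ∨ c = 1 := by decide
  rcases this c with rfl | rfl <;> rcases this c' with rfl | rfl <;>
    simp [ep, show (1 + 1 : ZMod 2) = 0 from rfl]

theorem ep_sq (c : ZMod 2) : ep c * ep c = 1 := by unfold ep; split_ifs <;> simp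

theorem abs_ep (c : ZMod 2) : |ep c| = 1 := by unfold ep; split_ifs <;> simp

variable {A : ℕ}

/-- real characters of the cube -/
def IsCh (W : (Fin A → ZMod 2) → ℝ) : Prop := W 0 = 1 ∧ ∀ y y', W (y + y') = W y * W y'

theorem IsCh.mul {W W' : (Fin A → ZMod 2) → ℝ} (h : IsCh W) (h' : IsCh W') :
    IsCh fun y => W y * W' y := ⟨by simp [h.1, h'.1], fun y y' => by simp only [h.2, h'.2]; ring⟩

theorem IsCh.sum_eq_zero {W : (Fin A → ZMod 2) → ℝ} (h : IsCh W) {z : Fin A → ZMod 2}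
    (hz : W z ≠ 1) : ∑ y, W y = 0 := by
  refine eq_zero_of_mul_eq_self_left hz ?_
  simp only [mul_sum, ← h.2]
  exact Equiv.sum_comp (Equiv.addLeft z) W

theorem IsCh.sum_nonneg {W : (Fin A → ZMod 2) → ℝ} (h : IsCh W) : 0 ≤ ∑ y, W y := by
  by_cases H : ∀ z, W z = 1
  · exact Finset.sum_nonneg fun y _ => by rw [H]; exact zero_le_one
  · obtain ⟨z, hz⟩ := not_forall.1 H
    exact (h.sum_eq_zero hz).ge

/-- the Walsh functions -/
noncomputable def w (a : Finset (Fin A)) (y : Fin A → ZMod 2) : ℝ := ∏ i ∈ a, ep (y i)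

theorem ch_w (a : Finset (Fin A)) : IsCh (w a) :=
  ⟨by simp [w, ep], fun y y' => by simp [w, ep_add, prod_mul_distrib]⟩

theorem ch_ep (i : Fin A) : IsCh fun y : Fin A → ZMod 2 => ep (y i) :=
  ⟨by simp [ep], fun y y' => ep_add _ _⟩

theorem w_sq (a : Finset (Fin A)) (y : Fin A → ZMod 2) : w a y * w a y = 1 := by
  simp [w, ← prod_mul_distrib, ep_sq]

theorem abs_w (a : Finset (Fin A)) (y : Fin A → ZMod 2) : |w a y| = 1 := by
  simp [w, abs_prod, abs_ep]

theorem w_single (a : Finset (Fin A)) (i : Fin A) :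
    w a (Pi.single i 1) = if i ∈ a then -1 else 1 := by
  rw [w, ← prod_ite_eq' a i fun _ => (-1 : ℝ)]
  refine prod_congr rfl fun j _ => ?_
  by_cases h : j = i <;> simp [h, ep]

theorem orth (a b : Finset (Fin A)) : ∑ y, w a y * w b y = if a = b then (2 : ℝ) ^ A else 0 := by
  split_ifs with h
  · simp [h, w_sq]
  · obtain ⟨i, hi⟩ := not_forall.1 (mt Finset.ext h)
    refine ((ch_w a).mul (ch_w b)).sum_eq_zero (z := Pi.single i 1) ?_
    simp only [w_single]
    by_cases h1 : i ∈ a <;> by_cases h2 : i ∈ b <;> simp [h1, h2] at hi ⊢ <;> norm_num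

/-- the kernel -/
noncomputable def ker (l : ℝ) (d : ℕ) (y : Fin A → ZMod 2) : ℝ :=
  ∑ a : Finset (Fin A) with #a ≤ d, l ^ #a * w a y

theorem ker_sq (l : ℝ) (d : ℕ) (y : Fin A → ZMod 2) : ker l d y ^ 2 =
    ∑ a : Finset (Fin A) with #a ≤ d, ∑ b : Finset (Fin A) with #b ≤ d,
      l ^ #a * l ^ #b * (w a y * w b y) := by
  rw [sq, ker, sum_mul_sum]
  exact sum_congr rfl fun a _ => sum_congr rfl fun b _ => by ring

theorem sum_ker_sq (l : ℝ) (d : ℕ) : ∑ y : Fin A → ZMod 2, ker l d y ^ 2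
    = 2 ^ A * ∑ a : Finset (Fin A) with #a ≤ d, (l ^ 2) ^ #a := by
  simp only [ker_sq]
  rw [sum_comm, mul_sum]
  refine sum_congr rfl fun a ha => ?_
  rw [sum_comm]
  simp only [← mul_sum, orth, mul_ite, mul_zero, sum_ite_eq, if_pos ha]
  ring

theorem sum_ker_ep {l : ℝ} (hl : 0 ≤ l) (d : ℕ) :
    2 ^ A * (2 * l * (A - d) * ∑ a : Finset (Fin A) with #a < d, (l ^ 2) ^ #a)
      ≤ ∑ y : Fin A → ZMod 2, ker l d y ^ 2 * ∑ i, ep (y i) := by
  set K : Finset (Finset (Fin A)) := {a | #a ≤ d} with hK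
  let G : Finset (Fin A) → Finset (Fin A) → Fin A → ℝ := fun a b i =>
    if i ∉ a ∧ insert i a = b then 2 ^ A * l * (l ^ 2) ^ #a else 0
  have h1 : ∑ y : Fin A → ZMod 2, ker l d y ^ 2 * ∑ i, ep (y i) = ∑ a ∈ K, ∑ b ∈ K, ∑ i,
      l ^ #a * l ^ #b * ∑ y : Fin A → ZMod 2, w a y * w b y * ep (y i) := by
    simp only [ker_sq, sum_mul]
    rw [sum_comm]
    refine sum_congr rfl fun a _ => ?_
    rw [sum_comm]
    refine sum_congr rfl fun b _ => ?_
    simp only [mul_sum]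
    rw [sum_comm]
    exact sum_congr rfl fun i _ => sum_congr rfl fun y _ => by ring
  have h2 : ∀ a i, i ∉ a → l ^ #a * l ^ #(insert i a) *
      ∑ y : Fin A → ZMod 2, w a y * w (insert i a) y * ep (y i) = 2 ^ A * l * (l ^ 2) ^ #a := by
    intro a i hi
    have : ∀ y : Fin A → ZMod 2, w a y * w (insert i a) y * ep (y i) = 1 := fun y => by
      have e : w (insert i a) y = ep (y i) * w a y := prod_insert hi
      rw [e]
      linear_combination (ep (y i) * ep (y i)) * w_sq a y + ep_sq (y i)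
    simp only [this, card_insert_of_notMem hi]
    simp
    ring
  have h3 : ∀ a b i, G a b i + G b a i ≤
      l ^ #a * l ^ #b * ∑ y : Fin A → ZMod 2, w a y * w b y * ep (y i) := fun a b i => by
    simp only [G]
    split_ifs with p q q
    · exact absurd (q.2 ▸ mem_insert_self _ _) p.1
    · rw [← p.2, h2 a i p.1, add_zero]
    · rw [← q.2, zero_add, ← h2 b i q.1]
      simp only [mul_comm (w b _), mul_comm (l ^ #b), le_refl]
    · rw [add_zero]
      exact mul_nonneg (by positivity) (((ch_w a).mul (ch_w b)).mul (ch_ep i)).sum_nonneg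
  have h4 : 2 ^ A * (l * (A - d) * ∑ a : Finset (Fin A) with #a < d, (l ^ 2) ^ #a)
      ≤ ∑ a ∈ K, ∑ b ∈ K, ∑ i, G a b i := by
    rw [mul_sum, mul_sum]
    refine (sum_le_sum fun a ha => ?_).trans (sum_le_sum_of_subset_of_nonneg
      (fun a ha => mem_filter.2 ⟨mem_univ _, (mem_filter.1 ha).2.le⟩) fun a _ _ =>
        sum_nonneg fun b _ => sum_nonneg fun i _ => by simp only [G]; split_ifs <;> positivity)
    have ha' := (mem_filter.1 ha).2
    have : ∀ i, ∑ b ∈ K, G a b i = if i ∈ aᶜ then 2 ^ A * l * (l ^ 2) ^ #a else 0 := fun i => by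
      by_cases hi : i ∈ a
      · simp [G, hi]
      · simp [G, hi, hK, card_insert_of_notMem hi, Nat.succ_le_of_lt ha']
    rw [sum_comm, sum_congr rfl fun i _ => this i, sum_ite_mem, univ_inter, sum_const, card_compl,
      Fintype.card_fin, nsmul_eq_mul, Nat.cast_sub (by simpa using card_le_univ a)]
    have h5 : (A - d : ℝ) ≤ A - #a := sub_le_sub_left (Nat.cast_le.2 ha'.le) _
    have h6 : 0 ≤ 2 ^ A * l * (l ^ 2) ^ #a := by positivity
    nlinarith [mul_le_mul_of_nonneg_right h5 h6]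
  have h5 : ∑ a ∈ K, ∑ b ∈ K, ∑ i, G b a i = ∑ a ∈ K, ∑ b ∈ K, ∑ i, G a b i := sum_comm
  have h6 := sum_le_sum (s := K) fun a _ => sum_le_sum (s := K) fun b _ =>
    sum_le_sum (s := univ) fun i _ => h3 a b i
  simp only [sum_add_distrib] at h6
  rw [h1]
  linarith

theorem abs_ker_le {l : ℝ} (hl : 0 ≤ l) (d : ℕ) (y : Fin A → ZMod 2) :
    |ker l d y| ≤ ∑ a : Finset (Fin A) with #a ≤ d, l ^ #a :=
  (abs_sum_le_sum_abs _ _).trans (sum_le_sum fun a _ => by
    rw [abs_mul, abs_w, mul_one, abs_of_nonneg (pow_nonneg hl _)])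

theorem disc {l B : ℝ} (hl : 0 ≤ l) (d : ℕ) {δ : (Fin A → ZMod 2) → ℝ}
    (h : ∀ W, IsCh W → |∑ y, W y * δ y| ≤ B) {W : (Fin A → ZMod 2) → ℝ} (hW : IsCh W) :
    |∑ y, ker l d y ^ 2 * W y * δ y| ≤ (∑ a : Finset (Fin A) with #a ≤ d, l ^ #a) ^ 2 * B := by
  simp only [ker_sq, sum_mul]
  rw [sum_comm, sq, sum_mul_sum, sum_mul]
  refine (abs_sum_le_sum_abs _ _).trans (sum_le_sum fun a _ => ?_)
  rw [sum_comm, sum_mul]
  refine (abs_sum_le_sum_abs _ _).trans (sum_le_sum fun b _ => ?_)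
  have := h _ (((ch_w a).mul (ch_w b)).mul hW)
  simp only [mul_assoc (l ^ #a * l ^ #b), ← mul_sum]
  rw [abs_mul, abs_of_nonneg (by positivity)]
  exact mul_le_mul_of_nonneg_left this (by positivity)

theorem binom {ι : Type} (I : Finset ι) (p : ℝ) : ∑ b ∈ I.powerset, p ^ #b = (1 + p) ^ #I := by
  classical
  rw [← prod_const, prod_one_add]
  simp

theorem tail {ι : Type} (I : Finset ι) {p s : ℝ} (hp : 0 ≤ p) (hs : 1 ≤ s) (d : ℕ) :
    ∑ b ∈ I.powerset with d ≤ #b, p ^ #b ≤ (1 + p * s) ^ #I / s ^ d := by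
  rw [le_div_iff₀ (by positivity), ← binom, sum_mul]
  refine (sum_le_sum fun b hb => ?_).trans (sum_le_sum_of_subset_of_nonneg (filter_subset _ _)
    fun b _ _ => by positivity)
  rw [mul_pow]
  exact mul_le_mul_of_nonneg_left (pow_le_pow_right₀ hs (mem_filter.1 hb).2) (by positivity)

theorem sum_ep (y : Fin A → ZMod 2) : ∑ i, ep (y i) = A - 2 * #{i | y i ≠ 0} := by
  have : ∀ i, ep (y i) = 1 - 2 * if y i ≠ 0 then 1 else 0 := fun i => by
    by_cases h : y i = 0 <;> simp [ep, h]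
    norm_num
  simp only [this, sum_sub_distrib, ← mul_sum, sum_boole]
  simp

end Pool.Agent.Lib.MP_f6c7cf_nt.SI
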