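import Pool.Agent.Lib.MP_f6c7cf_nt.SI.Weil
import Pool.Agent.Lib.MP_f6c7cf_nt.SI.Kernel

/-! Equidistribution of the middle digits against characters of the cube. -/

namespace Pool.Agent.Lib.MP_f6c7cf_nt.SI

open Polynomial Finset
open scoped Classical

theorem four {R ι : Type} [CommRing R] [Finite R] {A : ℕ} {e : (Fin A → ZMod 2) → R}
    (e0 : ∀ y, e y = 1 ↔ y = 0) (ea : ∀ y y', e (y + y') = e y * e y') (u : Rˣ) (T : Finset ι)
    (N : ι → R) {B : ℝ} (hB0 : 0 ≤ B) (hB : ∀ χ : MulChar R ℂ, χ ≠ 1 → ‖∑ x ∈ T, χ (N x)‖ ≤ B)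
    {W : (Fin A → ZMod 2) → ℝ} (hW : IsCh W) :
    |∑ y, W y * ((#{x ∈ T | N x = u * e y} : ℝ)
      - (∑ x ∈ T, (1 : MulChar R ℝ) (N x)) / Nat.card Rˣ)| ≤ B := by
  have := Fintype.ofFinite (MulChar R ℂ)
  set g := Nat.card Rˣ
  have hg : (0 : ℝ) < g := Nat.cast_pos.2 Nat.card_pos
  have o1 : ∀ r : R, ∑ χ : MulChar R ℂ, χ r = if r = 1 then (g : ℂ) else 0 := fun r => by
    split_ifs with h
    · simp [h, g, ← MulChar.card_eq_card_units_of_hasEnoughRootsOfUnity R ℂ]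
    · obtain ⟨χ, hχ⟩ := MulChar.exists_apply_ne_one_of_hasEnoughRootsOfUnity R ℂ h
      refine eq_zero_of_mul_eq_self_left hχ ?_
      simp only [mul_sum, ← MulChar.mul_apply]
      exact Fintype.sum_bijective _ (Group.mulLeft_bijective χ) _ _ fun _ => rfl
  have ee : ∀ y, e y * e y = 1 := fun y => by
    rw [← ea, e0]
    exact funext fun i => CharTwo.add_self_eq_zero _
  let t : MulChar R ℂ → ℂ := fun χ => ∑ y, W y * χ (e y)
  have t1 : ∀ χ, (‖t χ‖ : ℂ) = t χ := fun χ => by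
    by_cases H : ∀ z, W z * χ (e z) = 1
    · simp [t, H]
    · obtain ⟨z, hz⟩ := not_forall.1 H
      have : t χ = 0 := by
        refine eq_zero_of_mul_eq_self_left hz ?_
        refine Eq.trans ?_ (Equiv.sum_comp (Equiv.addLeft z) _)
        rw [mul_sum]
        exact sum_congr rfl fun y _ => by simp [ea, hW.2]; ring
      simp [this]
  have t2 : ∑ χ, ‖t χ‖ = g := by
    have : ∑ χ, t χ = g := by
      rw [sum_comm]
      simp [← mul_sum, o1, e0, hW.1]
    exact_mod_cast (sum_congr rfl fun χ _ => t1 χ).trans this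
  have h1 : (g : ℂ) * ∑ y, W y * (#{x ∈ T | N x = u * e y} : ℂ)
      = ∑ χ : MulChar R ℂ, χ (u⁻¹ : Rˣ) * (∑ x ∈ T, χ (N x)) * t χ := by
    have : ∀ y x, (if N x = u * e y then (g : ℂ) else 0)
        = ∑ χ : MulChar R ℂ, χ (u⁻¹ : Rˣ) * χ (N x) * χ (e y) := fun y x => by
      simp only [← map_mul, o1]
      refine if_congr ⟨fun h => by rw [h, Units.inv_mul_cancel_left, ee], fun h => ?_⟩ rfl rfl
      rw [← mul_one (N x), ← ee y, ← mul_assoc, ← Units.mul_inv_cancel_left u (N x), mul_assoc,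
        mul_assoc, ← mul_assoc _ (e y), h, one_mul]
    simp only [t, mul_sum, sum_mul]
    rw [sum_comm]
    refine sum_congr rfl fun y _ => ?_
    rw [sum_comm, mul_left_comm, mul_comm (g : ℂ), ← nsmul_eq_mul, ← sum_const, sum_filter, mul_sum]
    refine sum_congr rfl fun x _ => ?_
    rw [this, mul_sum]
    exact sum_congr rfl fun χ _ => by ring
  have h2 : ∀ r : R, (1 : MulChar R ℂ) r = (1 : MulChar R ℝ) r := fun r => by
    by_cases h : IsUnit r
    · simp [MulChar.one_apply h]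
    · simp [MulChar.map_nonunit _ h]
  have h3 : t 1 = ∑ y, W y := by
    simp [t, fun y => MulChar.one_apply (R' := ℂ) (IsUnit.of_mul_eq_one _ (ee y))]
  rw [← add_sum_erase _ _ (mem_univ (1 : MulChar R ℂ)), h3, MulChar.one_apply_coe, ← sub_eq_iff_eq_add'] at h1
  have h4 : ‖∑ χ ∈ univ.erase (1 : MulChar R ℂ), χ (u⁻¹ : Rˣ) * (∑ x ∈ T, χ (N x)) * t χ‖
      ≤ g * B := by
    refine (norm_sum_le _ _).trans ((sum_le_sum (g := fun χ => ‖t χ‖ * B) fun χ hχ => ?_).trans ?_)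
    · rw [norm_mul, norm_mul, norm_chi, MulChar.one_apply_coe, one_mul, mul_comm]
      exact mul_le_mul_of_nonneg_left (hB χ (ne_of_mem_erase hχ)) (norm_nonneg _)
    · rw [← t2, sum_mul]
      exact sum_le_sum_of_subset_of_nonneg (erase_subset _ _) fun _ _ _ => by positivity
  refine le_of_mul_le_mul_left (le_of_eq_of_le ?_ h4) hg
  rw [← h1, ← Real.norm_eq_abs, ← Complex.norm_real, ← Complex.norm_natCast g, ← norm_mul]
  congr 1
  simp only [h2, mul_sub, sum_sub_distrib, ← sum_mul, Complex.norm_natCast]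
  have : (g : ℂ) ≠ 0 := by exact_mod_cast hg.ne'
  push_cast
  field_simp

/-- the polynomial with prescribed middle digits -/
noncomputable def pol {A : ℕ} (y : Fin A → ZMod 2) : (ZMod 2)[X] :=
  ∑ i : Fin A, monomial (A + 1 + i) (y i)

variable {A : ℕ}

theorem pol_add (y y' : Fin A → ZMod 2) : pol (y + y') = pol y + pol y' := by
  simp [pol, sum_add_distrib]

theorem coeff_pol (y : Fin A → ZMod 2) (i : Fin A) : (pol y).coeff (A + 1 + i) = y i := by
  simp [pol, coeff_monomial, Fin.val_inj]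

theorem of_coeff_pol {y : Fin A → ZMod 2} {j : ℕ} (h : (pol y).coeff j ≠ 0) :
    ∃ i : Fin A, y i ≠ 0 ∧ A + 1 + i = j := by
  rw [pol, finsetSum_coeff] at h
  obtain ⟨i, -, hi⟩ := exists_ne_zero_of_sum_ne_zero h
  rw [coeff_monomial] at hi
  exact ⟨i, by simpa [and_comm] using hi⟩

theorem cl_pol_mul (y y' : Fin A → ZMod 2) : cl (2 * A + 1) (pol y) * cl (2 * A + 1) (pol y') = 0 := by
  have : ∀ y : Fin A → ZMod 2, X ^ (A + 1) ∣ pol y := fun y => X_pow_dvd_iff.2 fun j hj => by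
    by_contra h
    obtain ⟨i, -, hi⟩ := of_coeff_pol h
    omega
  rw [← map_mul, AdjoinRoot.mk_eq_zero]
  refine Dvd.dvd.trans ?_ (mul_dvd_mul (this y) (this y'))
  rw [← pow_add]
  exact pow_dvd_pow _ (by omega)

theorem cl_pol_eq_zero {y : Fin A → ZMod 2} (h : cl (2 * A + 1) (pol y) = 0) : y = 0 := by
  ext i
  rw [← coeff_pol y i]
  exact X_pow_dvd_iff.1 (AdjoinRoot.mk_eq_zero.1 h) _ (by omega)

/-- the elements whose characteristic polynomial has prescribed low digits -/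
noncomputable def cls (n : ℕ) (P : (ZMod 2)[X]) (y : Fin A → ZMod 2) : Finset Om :=
  {x ∈ FQ n | cl (2 * A + 1) (cp n x) = cl (2 * A + 1) (P + pol y)}

theorem equi {n : ℕ} (hn : 0 < n) {P : (ZMod 2)[X]} (hP : P.coeff 0 = 1) : ∃ μ : ℝ,
    2 ^ n - 1 ≤ μ * 2 ^ (2 * A + 1) ∧ ∀ W : (Fin A → ZMod 2) → ℝ, IsCh W →
      |∑ y, W y * ((#(cls n P y) : ℝ) - μ)| ≤ (2 * A + 1) * √2 ^ n := by
  obtain ⟨u, hu⟩ := (isUnit_cl (i := 2 * A)).2 hP
  have hg : (0 : ℝ) < Nat.card (Rm (2 * A + 1))ˣ := Nat.cast_pos.2 Nat.card_pos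
  refine ⟨(∑ x ∈ FQ n, (1 : MulChar (Rm (2 * A + 1)) ℝ) (cl _ (cp n x))) / Nat.card (Rm (2 * A + 1))ˣ,
    ?_, fun W hW => ?_⟩
  · have h1 := units_ge (i := 2 * A) hn
    have h2 : (Nat.card (Rm (2 * A + 1))ˣ : ℝ) ≤ 2 ^ (2 * A + 1) := by
      exact_mod_cast (Nat.card_le_card_of_injective _ Units.val_injective).trans_eq (card_Rm _)
    rw [div_mul_eq_mul_div, le_div_iff₀ hg]
    have h3 : (0 : ℝ) ≤ 2 ^ n - 1 := sub_nonneg.2 (one_le_pow₀ one_le_two)
    exact mul_le_mul h1 h2 hg.le (h3.trans h1)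
  · have := four (e := fun y => 1 + (u⁻¹ : (Rm (2 * A + 1))ˣ) * cl (2 * A + 1) (pol y))
      (fun y => ⟨fun h => cl_pol_eq_zero (by simpa using h), fun h => by simp [h, pol]⟩)
      (fun y y' => by
        rw [pol_add, map_add]
        linear_combination (-((u⁻¹ : (Rm (2 * A + 1))ˣ) : Rm (2 * A + 1)) ^ 2) * cl_pol_mul y y')
      u (FQ n) (fun x => cl _ (cp n x)) (B := (2 * A + 1) * √2 ^ n) (by positivity)
      (fun χ hχ => by exact_mod_cast weil hχ hn) hW
    simpa only [cls, mul_add, mul_one, Units.mul_inv_cancel_left, ← hu, map_add] using this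

end Pool.Agent.Lib.MP_f6c7cf_nt.SI
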