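import Pool.Agent.Lib.MP_f6c7cf_nt.SI.Upper

/-! Irreducible polynomials close to a given polynomial. -/

namespace Pool.Agent.Lib.MP_f6c7cf_nt.SI

open Polynomial Finset Filter Topology
open scoped Classical

theorem core {A n D θ d : ℕ} {f : (ZMod 2)[X]} (hf : f.Monic) (hn : f.natDegree = n)
    (hA : 2 * A < n)
    (H : ∀ g : (ZMod 2)[X], Irreducible g → g.natDegree = n → D < #(g - f).support)
    {l τ s s' : ℝ} (hl : 0 < l) (hl1 : l ≤ 1) (hτ : 0 ≤ τ) (hs : 1 ≤ s) (hs' : 1 ≤ s') (hd : d ≤ A)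
    (hD : ∀ v : ℕ, D < v + θ → (A : ℝ) - 2 * v ≤ τ)
    (hpos : 0 ≤ 2 * l * (A - d) * ((1 + l ^ 2) ^ A - (1 + l ^ 2 * s) ^ A / s ^ d)
      - τ * (1 + l ^ 2) ^ A) :
    2 ^ (n - 2 * A - 1) / 2 * (2 ^ A * (2 * l * (A - d) *
        ((1 + l ^ 2) ^ A - (1 + l ^ 2 * s) ^ A / s ^ d) - τ * (1 + l ^ 2) ^ A))
      ≤ ((A + τ) * (2 * A + 1) + A * n) * ((l⁻¹ ^ d * (1 + l ^ 2) ^ A) ^ 2 * √2 ^ n)
        + A * (2 ^ A * (1 + l ^ 2) ^ A) * (n * ((1 + 1 * s') ^ (n - 2 * A - 1) / s' ^ θ)) := by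
  obtain ⟨μ, m1, m2⟩ := equi (A := A) (n := n) (P := f.update 0 1) (by omega) (by simp)
  set K := ∑ a : Finset (Fin A) with #a ≤ d, l ^ #a with hK
  have b1 := binom (univ : Finset (Fin A)) (l ^ 2)
  have b2 := tail (univ : Finset (Fin A)) (sq_nonneg l) hs d
  have b3 := tail (Ioo (2 * A) n) zero_le_one hs' θ
  rw [powerset_univ, card_univ, Fintype.card_fin] at b1 b2
  simp only [one_pow, sum_const, nsmul_eq_mul, mul_one, Nat.card_Ioo] at b3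
  have p1 : ∑ a : Finset (Fin A) with #a ≤ d, (l ^ 2) ^ #a ≤ (1 + l ^ 2) ^ A :=
    b1 ▸ sum_le_sum_of_subset_of_nonneg (filter_subset _ _) fun _ _ _ => by positivity
  have p2 : (1 + l ^ 2) ^ A - (1 + l ^ 2 * s) ^ A / s ^ d
      ≤ ∑ a : Finset (Fin A) with #a < d, (l ^ 2) ^ #a := by
    rw [← sum_filter_add_sum_filter_not _ fun a => #a < d] at b1
    simp only [not_lt] at b1
    linarith
  have p3 : K ≤ l⁻¹ ^ d * (1 + l ^ 2) ^ A := by
    refine le_trans ?_ (mul_le_mul_of_nonneg_left p1 (by positivity))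
    rw [mul_sum]
    refine sum_le_sum fun a ha => ?_
    calc l ^ #a = l⁻¹ ^ #a * (l ^ 2) ^ #a := by rw [← mul_pow]; congr 1; field_simp
      _ ≤ _ := mul_le_mul_of_nonneg_right
        (pow_le_pow_right₀ (one_le_inv₀ hl |>.2 hl1) (mem_filter.1 ha).2) (by positivity)
  have p4 : K ^ 2 ≤ (l⁻¹ ^ d * (1 + l ^ 2) ^ A) ^ 2 :=
    pow_le_pow_left₀ (sum_nonneg fun _ _ => by positivity) p3 2
  have u := upper (A := A) (θ := θ) hf hn (by omega) H
    (Φ := fun y => ker l d y ^ 2 * (∑ i, ep (y i) - τ)) (κ := fun y => A * ker l d y ^ 2)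
    (M := A * K ^ 2) (fun y => by positivity)
    (fun y => mul_le_mul_of_nonneg_left (sq_le_sq' (abs_le.1 (abs_ker_le hl.le d y)).1
      (abs_le.1 (abs_ker_le hl.le d y)).2) (by positivity))
    (fun y => by
      rw [mul_comm, sum_ep]
      refine mul_le_mul_of_nonneg_right ?_ (by positivity)
      have : (0 : ℝ) ≤ #{i | y i ≠ 0} := by positivity
      linarith)
    (fun y hy => mul_nonpos_of_nonneg_of_nonpos (by positivity)
      (by rw [sum_ep]; exact sub_nonpos.2 (hD _ hy)))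
  rw [← mul_sum, sum_ker_sq] at u
  set c : (Fin A → ZMod 2) → ℝ := fun y => #(cls n (f.update 0 1) y)
  set B : ℝ := (2 * A + 1) * √2 ^ n with hB
  have d1 := (abs_le.1 (disc hl.le d m2 (W := fun _ => 1) ⟨rfl, by simp⟩)).2
  have d2 := sum_le_sum (s := univ) fun i _ => (abs_le.1 (disc hl.le d m2 (ch_ep i))).1
  rw [sum_comm, sum_const, card_univ, Fintype.card_fin, nsmul_eq_mul] at d2
  have e1 : ∑ y, ker l d y ^ 2 * (∑ i, ep (y i) - τ) * c y =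
      ∑ y, ∑ i, ker l d y ^ 2 * ep (y i) * (c y - μ) - τ * ∑ y, ker l d y ^ 2 * 1 * (c y - μ)
        + μ * (∑ y : Fin A → ZMod 2, ker l d y ^ 2 * ∑ i, ep (y i)
          - τ * ∑ y : Fin A → ZMod 2, ker l d y ^ 2) := by
    simp only [← sum_mul, ← mul_sum]
    simp only [mul_sum (s := (univ : Finset (Fin A → ZMod 2))), mul_sub μ, ← sum_sub_distrib,
      ← sum_add_distrib]
    exact sum_congr rfl fun y _ => by ring
  have e2 := sum_ker_ep (A := A) hl.le d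
  have e3 : (2 : ℝ) ^ (n - 2 * A - 1) / 2 ≤ μ := by
    refine le_of_mul_le_mul_right (le_trans ?_ m1) (by positivity)
    rw [div_mul_eq_mul_div, ← pow_add, show n - 2 * A - 1 + (2 * A + 1) = n by omega]
    have : (2 : ℝ) ^ 1 ≤ 2 ^ n := pow_le_pow_right₀ one_le_two (by omega)
    linarith
  have e4 : 2 ^ A * (2 * l * (A - d) * ((1 + l ^ 2) ^ A - (1 + l ^ 2 * s) ^ A / s ^ d)
      - τ * (1 + l ^ 2) ^ A) ≤ ∑ y : Fin A → ZMod 2, ker l d y ^ 2 * ∑ i, ep (y i)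
          - τ * ∑ y : Fin A → ZMod 2, ker l d y ^ 2 := by
    have : (0 : ℝ) ≤ A - d := sub_nonneg.2 (Nat.cast_le.2 hd)
    rw [sum_ker_sq, mul_sub, mul_left_comm τ]
    refine sub_le_sub (le_trans ?_ e2) ?_ <;> gcongr
  have e5 := mul_le_mul e3 e4 (by positivity) (le_trans (by positivity) e3)
  have e6 := mul_le_mul_of_nonneg_left d1 hτ
  have e7 : A * (2 ^ A * ∑ a : Finset (Fin A) with #a ≤ d, (l ^ 2) ^ #a) *
      (n * #{b ∈ (Ioo (2 * A) n).powerset | θ ≤ #b})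
      ≤ A * (2 ^ A * (1 + l ^ 2) ^ A) * (n * ((1 + 1 * s') ^ (n - 2 * A - 1) / s' ^ θ)) := by
    gcongr
  have e8 : ((A + τ) * (2 * A + 1) + A * n) * (K ^ 2 * √2 ^ n) ≤
      ((A + τ) * (2 * A + 1) + A * n) * ((l⁻¹ ^ d * (1 + l ^ 2) ^ A) ^ 2 * √2 ^ n) := by gcongr
  rw [← hK, hB] at d2 e6
  simp only [c] at e1
  linarith

theorem lt_of_nat {a b c d p q : ℕ} (hb : 0 < b) (hd : 0 < d) (h : a ^ p * d ^ q < c ^ q * b ^ p) :
    ((a : ℝ) / b) ^ p < ((c : ℝ) / d) ^ q := by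
  rw [div_pow, div_pow, div_lt_div_iff₀ (by positivity) (by positivity)]
  exact_mod_cast h

theorem exists_ratio {x y : ℝ} (hx : 0 ≤ x) (h : x < y) : ∃ ρ : ℝ, 0 ≤ ρ ∧ ρ < 1 ∧ x = ρ * y :=
  ⟨x / y, div_nonneg hx (hx.trans h.le), (div_lt_one (hx.trans_lt h)).2 h,
    (div_mul_cancel₀ _ (hx.trans_lt h).ne').symm⟩

theorem numA : ∃ ρ : ℝ, 0 ≤ ρ ∧ ρ < 1 ∧ ∀ t : ℕ, (1 + (1 / 6) ^ 2 * (201 / 200) : ℝ) ^ (7400 * t)
    / (201 / 200) ^ (201 * t) = (1 + (1 / 6) ^ 2) ^ (7400 * t) * ρ ^ t := by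
  obtain ⟨ρ, h0, h1, h⟩ := exists_ratio (by positivity) (lt_of_nat (a := 7401) (b := 7400) (c := 201)
    (d := 200) (p := 7400) (q := 201) (by decide) (by decide) (by decide +kernel))
  simp only [Nat.cast_ofNat] at h
  refine ⟨ρ, h0, h1, fun t => ?_⟩
  rw [show (1 + (1 / 6) ^ 2 * (201 / 200) : ℝ) = (1 + (1 / 6) ^ 2) * (7401 / 7400) by norm_num,
    mul_pow, pow_mul (7401 / 7400 : ℝ), h, mul_pow, ← pow_mul (201 / 200 : ℝ), ← mul_assoc,
    mul_div_cancel_right₀ _ (by positivity)]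

theorem numB : ∃ ρ c : ℝ, 0 ≤ ρ ∧ ρ < 1 ∧ 0 ≤ c ∧ ∀ t R : ℕ, R ≤ 2670 * t + 17470 →
    (1 + 1 * (251 / 250) : ℝ) ^ R / (251 / 250) ^ (1341 * t) ≤ 2 ^ R * (c * ρ ^ t) := by
  obtain ⟨ρ, h0, h1, h⟩ := exists_ratio (by positivity) (lt_of_nat (a := 501) (b := 500) (c := 251)
    (d := 250) (p := 2670) (q := 1341) (by decide) (by decide) (by decide +kernel))
  simp only [Nat.cast_ofNat] at h
  refine ⟨ρ, (501 / 500) ^ 17470, h0, h1, by positivity, fun t R hR => ?_⟩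
  rw [show (1 + 1 * (251 / 250) : ℝ) = 2 * (501 / 500) by norm_num, mul_pow, mul_div_assoc]
  refine mul_le_mul_of_nonneg_left ?_ (by positivity)
  rw [div_le_iff₀ (by positivity), pow_mul, mul_assoc, ← mul_pow, ← h, ← pow_mul, ← pow_add]
  exact pow_le_pow_right₀ (by norm_num) (by omega)

theorem numC : ∃ ρ : ℝ, 0 ≤ ρ ∧ ρ < 1 ∧ ∀ t n : ℕ, 17470 * t ≤ n →
    ((1 / 6 : ℝ)⁻¹ ^ (201 * t)) ^ 2 * (1 + (1 / 6) ^ 2) ^ (7400 * t) * 2 ^ (7400 * t)
      ≤ √2 ^ n * ρ ^ t := by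
  have h2 : (6 ^ 402 * 37 ^ 7400 : ℕ) < 2 ^ 8735 * 18 ^ 7400 := by decide +kernel
  have h3 : (6 ^ 402 * (37 / 18) ^ 7400 : ℝ) < 2 ^ 8735 := by
    have := (Nat.cast_lt (α := ℝ)).2 h2
    simp only [Nat.cast_mul, Nat.cast_pow, Nat.cast_ofNat] at this
    rwa [div_pow, ← mul_div_assoc, div_lt_iff₀ (by positivity)]
  obtain ⟨ρ, h0, h1, h⟩ := exists_ratio (by positivity) h3
  refine ⟨ρ, h0, h1, fun t n hn => ?_⟩
  rw [mul_assoc, ← mul_pow, show ((1 + (1 / 6) ^ 2) * 2 : ℝ) = 37 / 18 by norm_num, one_div,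
    inv_inv, ← pow_mul, show 201 * t * 2 = 402 * t by ring, pow_mul, pow_mul, ← mul_pow, h, mul_pow,
    mul_comm]
  refine mul_le_mul_of_nonneg_right ?_ (by positivity)
  calc ((2 : ℝ) ^ 8735) ^ t = √2 ^ (2 * (8735 * t)) := by
        rw [pow_mul (√2), Real.sq_sqrt two_pos.le, pow_mul]
    _ ≤ _ := pow_le_pow_right₀ (Real.one_le_sqrt.2 one_le_two) (by omega)

theorem small {ρ : ℝ} (h0 : 0 ≤ ρ) (h1 : ρ < 1) (c : ℝ) :
    ∀ᶠ t : ℕ in atTop, c * (t ^ 2 * ρ ^ t) < 1 / 8 := by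
  have := (tendsto_pow_const_mul_const_pow_of_abs_lt_one 2 (by rwa [abs_of_nonneg h0])).const_mul c
  rw [mul_zero] at this
  exact this.eventually_lt_const (by norm_num)

theorem main : ∃ N : ℕ, ∀ n ≥ N, ∀ f : (ZMod 2)[X], f.natDegree = n →
    ∃ g : (ZMod 2)[X], Irreducible g ∧ g.natDegree = n ∧ 50 * #(g - f).support ≤ 11 * n := by
  obtain ⟨a, a0, a1, ha⟩ := numA
  obtain ⟨b, c, b0, b1, c0, hb⟩ := numB
  obtain ⟨e, e0, e1, he⟩ := numC
  obtain ⟨T, hT⟩ := eventually_atTop.1 ((small a0 a1 2000).and ((small b0 b1 (3 * 10 ^ 8 * c)).and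
    ((small e0 e1 (10 ^ 9)).and (eventually_ge_atTop 1))))
  refine ⟨17470 * T + 1, fun n hn f hf => ?_⟩
  obtain ⟨t, r, hr, ht⟩ : ∃ t r, r < 17470 ∧ n = 17470 * t + r :=
    ⟨n / 17470, n % 17470, by omega, by omega⟩
  obtain ⟨s1, s2, s3, s4⟩ := hT t (by omega)
  by_contra H
  have hm : f.Monic := by
    have : f.leadingCoeff ≠ 0 := leadingCoeff_ne_zero.2 (by rintro rfl; simp at hf; omega)
    rw [Monic]
    revert this
    generalize f.leadingCoeff = z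
    decide +revert
  have t1 : (1 : ℝ) ≤ t := by exact_mod_cast s4
  have t2 : (n : ℝ) ≤ 34940 * t := by exact_mod_cast (by omega : n ≤ 34940 * t)
  have t3 : a ^ t ≤ 1 / 16000 := by
    have : 1 * a ^ t ≤ t ^ 2 * a ^ t := by gcongr; nlinarith
    linarith
  have hP : (0 : ℝ) < (1 + (1 / 6) ^ 2) ^ (7400 * t) := by positivity
  have k1 := he t n (by omega)
  have k2 := hb t (n - 2 * (7400 * t) - 1) (by omega)
  have k3 : (√2 ^ n) ^ 2 = 2 * (2 ^ (7400 * t)) ^ 2 * 2 ^ (n - 2 * (7400 * t) - 1) := by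
    rw [pow_right_comm, Real.sq_sqrt two_pos.le, ← pow_mul, ← pow_succ', ← pow_add]
    congr 1
    omega
  have k4 : (1 + (1 / 6) ^ 2) ^ (7400 * t) * (t / 2) ≤ 2 * (1 / 6) * ((7400 * t : ℕ) - (201 * t : ℕ))
      * ((1 + (1 / 6) ^ 2) ^ (7400 * t) - (1 + (1 / 6) ^ 2 * (201 / 200) : ℝ) ^ (7400 * t)
        / (201 / 200) ^ (201 * t)) - 2399 * t * (1 + (1 / 6) ^ 2) ^ (7400 * t) := by
    rw [ha]
    generalize (1 + (1 / 6) ^ 2 : ℝ) ^ (7400 * t) = P at hP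
    have : t * P * a ^ t ≤ t * P * (1 / 16000) := by gcongr
    have : 0 ≤ t * P := by positivity
    push_cast
    linarith
  have k5 := core (A := 7400 * t) (D := 11 * n / 50) (θ := 1341 * t) (d := 201 * t) hm hf (by omega)
    (fun g h1 h2 => by
      by_contra h3
      exact H ⟨g, h1, h2, by omega⟩) (l := 1 / 6) (τ := 2399 * t) (s := 201 / 200)
    (s' := 251 / 250) (by norm_num) (by norm_num) (by positivity) (by norm_num) (by norm_num)
    (by omega) (fun v hv => by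
      have : ((7400 * t : ℕ) : ℝ) ≤ (2 * v + 2399 * t : ℕ) := Nat.cast_le.2 (by omega)
      push_cast at this ⊢
      linarith) (le_trans (by positivity) k4)
  replace k5 := le_trans (mul_le_mul_of_nonneg_left (mul_le_mul_of_nonneg_left k4 (by positivity))
    (by positivity)) k5
  have hE : (0 : ℝ) < 2 ^ (n - 2 * (7400 * t) - 1) := by positivity
  have hU : (0 : ℝ) < 2 ^ (7400 * t) := by positivity
  have hQ : (0 : ℝ) < √2 ^ n := by positivity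
  have hL : (0 : ℝ) ≤ ((1 / 6 : ℝ)⁻¹ ^ (201 * t)) ^ 2 := by positivity
  rw [mul_pow] at k5
  generalize (1 + (1 / 6) ^ 2 : ℝ) ^ (7400 * t) = P at *
  generalize (2 : ℝ) ^ (n - 2 * (7400 * t) - 1) = E at *
  generalize (2 : ℝ) ^ (7400 * t) = U at *
  generalize √2 ^ n = Q at *
  generalize ((1 / 6 : ℝ)⁻¹ ^ (201 * t)) ^ 2 = L at *
  have k6 : L * P ^ 2 * Q ≤ E * U * P * (2 * e ^ t) := by
    refine le_of_mul_le_mul_right ?_ hU
    have := mul_le_mul_of_nonneg_left k1 (mul_pos hP hQ).le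
    calc _ = P * Q * (L * P * U) := by ring
      _ ≤ P * Q ^ 2 * e ^ t := by linarith
      _ = _ := by rw [k3]; ring
  push_cast at k5
  have k7 : ((7400 * t + 2399 * t) * (2 * (7400 * t) + 1) + 7400 * t * n : ℝ)
      ≤ 5 * 10 ^ 8 * t ^ 2 := by nlinarith
  have k8 := mul_le_mul k7 k6 (by positivity) (by positivity)
  have k9 : 7400 * t * (U * P) * (n * ((1 + 1 * (251 / 250) : ℝ) ^ (n - 2 * (7400 * t) - 1)
      / (251 / 250) ^ (1341 * t))) ≤ 7400 * t * (U * P) * (34940 * t * (E * (c * b ^ t))) := by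
    gcongr
  have hZ := mul_pos (mul_pos hE hU) hP
  have k10 := mul_lt_mul_of_pos_left s2 hZ
  have k11 := mul_lt_mul_of_pos_left s3 hZ
  have k12 := mul_le_mul_of_nonneg_left t1 hZ.le
  have k13 : 0 ≤ E * U * P * (c * (t ^ 2 * b ^ t)) := by positivity
  linarith

end Pool.Agent.Lib.MP_f6c7cf_nt.SI
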