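import Pool.Agent.Lib.MP_639284_nt.Deg

/-! The tower `g (j + 1) ^ 2 = z * g j + g (j + 1)` with its pole orders at infinity. -/

namespace Pool.Agent.Lib.MP_f6c7cf_nt.SI

open Polynomial Finset
open Pool.Agent.Lib.MP_639284_nt

section step

variable {k O : Type} [Field k] [CommRing O] [Algebra k O] (S : DegStr k O) {a : O}

theorem deg_expand (P : k[X]) : (expand k 2 P).degree = P.degree + P.degree := by
  rcases eq_or_ne P 0 with rfl | h
  · simp
  · rw [degree_eq_natDegree ((expand_ne_zero two_pos).2 h), natDegree_expand,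
      degree_eq_natDegree h, mul_two, Nat.cast_add]

theorem tri {D : ℕ} (hD : Odd D) (p q : WithBot ℕ) : (p = ⊥ ∧ q = ⊥) ∨
    ((D : WithBot ℕ) + (q + q) < p + p ∧ p + q < p + p) ∨
    (p + p < D + (q + q) ∧ p + q < D + (q + q)) := by
  obtain ⟨e, rfl⟩ := hD
  induction p using WithBot.recBotCoe <;> induction q using WithBot.recBotCoe
  · simp
  · right; right
    simp only [WithBot.bot_add, and_self]
    exact WithBot.bot_lt_coe _
  · right; left
    simp only [WithBot.add_bot, and_self]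
    exact WithBot.bot_lt_coe _
  · right
    simp only [Nat.cast_withBot, ← WithBot.coe_add, WithBot.coe_lt_coe]
    omega

variable (a) in
/-- the linear map of the next level -/
noncomputable def phi : QuadraticAlgebra O a 1 →ₗ[k] k[X] where
  toFun u := expand k 2 (S.φ u.re) + X ^ S.dg a * expand k 2 (S.φ u.im)
  map_add' u v := by simp only [QuadraticAlgebra.re_add, QuadraticAlgebra.im_add, map_add]; ring
  map_smul' c u := by
    simp only [QuadraticAlgebra.re_smul, QuadraticAlgebra.im_smul, map_smul, RingHom.id_apply,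
      smul_add, mul_smul_comm]

theorem deg_phi (ha : Odd (S.dg a)) (u : QuadraticAlgebra O a 1) : (phi S a u).degree =
    max ((S.φ u.re).degree + (S.φ u.re).degree)
      (S.dg a + ((S.φ u.im).degree + (S.φ u.im).degree)) := by
  have h1 := deg_expand (S.φ u.re)
  have h2 : (X ^ S.dg a * expand k 2 (S.φ u.im)).degree
      = S.dg a + ((S.φ u.im).degree + (S.φ u.im).degree) := by
    rw [degree_mul, degree_X_pow, deg_expand]
  change (expand k 2 (S.φ u.re) + X ^ S.dg a * expand k 2 (S.φ u.im)).degree = _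
  rcases tri ha (S.φ u.re).degree (S.φ u.im).degree with h | h | h
  · simp [degree_eq_bot.1 h.1, degree_eq_bot.1 h.2]
  · rw [degree_add_eq_left_of_degree_lt (by rw [h1, h2]; exact h.1), h1, max_eq_left h.1.le]
  · rw [degree_add_eq_right_of_degree_lt (by rw [h1, h2]; exact h.1), h2, max_eq_right h.1.le]

theorem deg_norm (ha : Odd (S.dg a)) (u : QuadraticAlgebra O a 1) :
    (S.φ u.norm).degree = (phi S a u).degree := by
  have h0 : a ≠ 0 := by rintro rfl; simp [S.dg_zero] at ha
  have h1 := S.mul u.re u.re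
  have h3 := S.mul u.re u.im
  have h2 : (S.φ (a * u.im * u.im)).degree = S.dg a + ((S.φ u.im).degree + (S.φ u.im).degree) := by
    rw [S.mul, S.mul, S.deg_eq h0, add_assoc]
  rw [deg_phi S ha, QuadraticAlgebra.norm_def, one_mul, map_sub, map_add]
  rcases tri ha (S.φ u.re).degree (S.φ u.im).degree with h | h | h
  · have e1 := S.inj ((degree_eq_bot.1 h.1).trans S.φ.map_zero.symm)
    have e2 := S.inj ((degree_eq_bot.1 h.2).trans S.φ.map_zero.symm)
    simp [e1, e2]
  · have := degree_add_eq_left_of_degree_lt (p := S.φ (u.re * u.re)) (q := S.φ (u.re * u.im))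
      (by rw [h1, h3]; exact h.2)
    rw [degree_sub_eq_left_of_degree_lt (by rw [this, h1, h2]; exact h.1), this, h1,
      max_eq_left h.1.le]
  · rw [degree_sub_eq_right_of_degree_lt ((degree_add_le _ _).trans_lt
      (by rw [h1, h2, h3]; exact max_lt h.1 h.2)), h2, max_eq_right h.1.le]

theorem gaps (ha : Odd (S.dg a)) : {n : ℕ | ¬ ∃ u, (phi S a u).degree = n}.Finite := by
  refine (Set.finite_lt_nat (2 * (S.G.sup id + 1) + S.dg a)).subset fun n hn => ?_
  by_contra h
  simp only [Set.mem_ofPred_eq, not_lt] at h hn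
  have key : ∀ m, S.G.sup id < m → ∃ r, (S.φ r).degree = m := fun m hm =>
    (S.gap m).1 fun h' => absurd (le_sup (f := id) h') (not_le.2 hm)
  refine hn ?_
  rcases Nat.even_or_odd n with ⟨m, rfl⟩ | ⟨m, rfl⟩
  · obtain ⟨r, hr⟩ := key m (by omega)
    exact ⟨⟨r, 0⟩, by simp [deg_phi S ha, hr]⟩
  · obtain ⟨e, he⟩ := id ha
    obtain ⟨r, hr⟩ := key (m - e) (by omega)
    refine ⟨⟨0, r⟩, ?_⟩
    simp only [deg_phi S ha, hr, map_zero, degree_zero, WithBot.add_bot, bot_le, max_eq_right, he,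
      ← Nat.cast_add, Nat.cast_inj]
    omega

/-- the degree structure of the next level -/
noncomputable def step (ha : Odd (S.dg a)) : DegStr k (QuadraticAlgebra O a 1) where
  φ := phi S a
  inj := (injective_iff_map_eq_zero _).2 fun u hu => by
    have h := deg_phi S ha u
    rw [hu, degree_zero, eq_comm, _root_.max_eq_bot] at h
    simp only [WithBot.add_eq_bot, or_self, WithBot.natCast_ne_bot, false_or, degree_eq_bot] at h
    ext
    · exact S.inj (h.1.trans S.φ.map_zero.symm)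
    · exact S.inj (h.2.trans S.φ.map_zero.symm)
  one := by simp [phi, S.one, QuadraticAlgebra.re_one, QuadraticAlgebra.im_one]
  mul u v := by rw [← deg_norm S ha, ← deg_norm S ha, ← deg_norm S ha, map_mul, S.mul]
  G := (gaps S ha).toFinset
  gap n := by simp

theorem dg_re (ha : Odd (S.dg a)) (u : QuadraticAlgebra O a 1) :
    2 * S.dg u.re ≤ (step S ha).dg u := by
  rcases eq_or_ne u.re 0 with h | h
  · simp [h, S.dg_zero]
  refine le_natDegree_of_coe_le_degree ?_
  change _ ≤ (phi S a u).degree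
  rw [deg_phi S ha, S.deg_eq h, two_mul, Nat.cast_add]
  exact le_max_left _ _

theorem dg_im (ha : Odd (S.dg a)) (u : QuadraticAlgebra O a 1) (h : u.im ≠ 0) :
    S.dg a + 2 * S.dg u.im ≤ (step S ha).dg u := by
  refine le_natDegree_of_coe_le_degree ?_
  change _ ≤ (phi S a u).degree
  rw [deg_phi S ha, S.deg_eq h, two_mul, Nat.cast_add, Nat.cast_add]
  exact le_max_right _ _

theorem dg_map (ha : Odd (S.dg a)) (r : O) : (step S ha).dg (algebraMap O _ r) = 2 * S.dg r := by
  simp [DegStr.dg, step, phi, natDegree_expand, mul_comm]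

theorem dg_om (ha : Odd (S.dg a)) : (step S ha).dg QuadraticAlgebra.omega = S.dg a := by
  simp [DegStr.dg, step, phi, S.one]

theorem dg_add_le {u v : O} {n : ℕ} (hu : S.dg u ≤ n) (hv : S.dg v ≤ n) : S.dg (u + v) ≤ n := by
  rw [DegStr.dg, map_add]
  exact natDegree_add_le_of_degree_le hu hv

theorem dg_mul_le (u v : O) : S.dg (u * v) ≤ S.dg u + S.dg v := by
  rcases eq_or_ne u 0 with rfl | hu
  · simp [S.dg_zero]
  rcases eq_or_ne v 0 with rfl | hv
  · simp [S.dg_zero]
  exact (S.dg_mul hu hv).le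

theorem dg_sum_le {ι : Type} (s : Finset ι) (f : ι → O) {n : ℕ} (h : ∀ i ∈ s, S.dg (f i) ≤ n) :
    S.dg (∑ i ∈ s, f i) ≤ n := by
  rw [DegStr.dg, map_sum]
  exact natDegree_sum_le_of_forall_le _ _ h

end step

/-- the equations of the tower -/
def Rel {B : Type} [CommRing B] (i : ℕ) (z : B) (Γ : B[X]) : Prop :=
  Γ.coeff 0 = 1 ∧ ∀ j < i, Γ.coeff (j + 1) ^ 2 = z * Γ.coeff j + Γ.coeff (j + 1)

/-- the properties of level `i` -/
structure Lvl {k O : Type} [Field k] [CommRing O] [Algebra k O] (S : DegStr k O) (i : ℕ) (z : O)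
    (Γ : O[X]) : Prop where
  rel : Rel i z Γ
  dz : S.dg z = 2 ^ i
  dg : ∀ j ≤ i, S.dg (Γ.coeff j) + 2 ^ (i - j) = 2 ^ i
  ne : Γ.coeff i ≠ 0
  lift : ∀ (B : Type) [CommRing B] [Algebra k B] (z' : B) (Γ' : B[X]), Rel i z' Γ' →
    ∃ ψ : O →ₐ[k] B, ψ z = z' ∧ ∀ j ≤ i, ψ (Γ.coeff j) = Γ'.coeff j
  ext : ∀ (B : Type) [CommRing B] [Algebra k B] (ψ ψ' : O →ₐ[k] B), ψ z = ψ' z →
    (∀ j ≤ i, ψ (Γ.coeff j) = ψ' (Γ.coeff j)) → ψ = ψ'
  mono : ∀ (B : Type) [CommRing B] [Algebra k B] (T : DegStr k B) (ψ : O →ₐ[k] B) (c : ℕ),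
    T.dg (ψ z) ≤ c * S.dg z → (∀ j ≤ i, T.dg (ψ (Γ.coeff j)) ≤ c * S.dg (Γ.coeff j)) →
    ∀ u, T.dg (ψ u) ≤ c * S.dg u

theorem lvl_zero (k : Type) [Field k] : Lvl (lineStr k) 0 X 1 where
  rel := ⟨by simp, by simp⟩
  dz := by simp [DegStr.dg, lineStr]
  dg j hj := by simp [Nat.le_zero.1 hj, DegStr.dg, lineStr]
  ne := by simp
  lift B _ _ z' Γ' h := ⟨aeval z', by simp, fun j hj => by simp [Nat.le_zero.1 hj, h.1]⟩
  ext B _ _ ψ ψ' h _ := algHom_ext h
  mono B _ _ T ψ c h _ u := by
    have e : ψ u = aeval (ψ X) u := by rw [aeval_algHom_apply, aeval_X_left_apply]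
    rw [e, aeval_eq_sum_range]
    refine dg_sum_le T _ _ fun j hj => ?_
    rw [Algebra.smul_def]
    refine (dg_mul_le T _ _).trans ?_
    rw [T.dg_algebraMap, zero_add, T.dg_pow, mul_comm c]
    refine Nat.mul_le_mul (Nat.lt_succ_iff.1 (mem_range.1 hj)) ?_
    simpa [DegStr.dg, lineStr] using h

theorem lvl_succ {k O : Type} [Field k] [CommRing O] [Algebra k O] {S : DegStr k O} {i : ℕ} {z : O}
    {Γ : O[X]} (h : Lvl S i z Γ) {a : O} (hae : a = z * Γ.coeff i) :
    ∃ ha : Odd (S.dg a), Lvl (step S ha) (i + 1)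
      (algebraMap O _ z) ((Γ.map (algebraMap O _)).update (i + 1) QuadraticAlgebra.omega) := by
  have hp : 0 < 2 ^ i := by positivity
  have hz : z ≠ 0 := by
    rintro rfl
    have := h.dz
    rw [S.dg_zero] at this
    omega
  have hd : S.dg a + 1 = 2 ^ (i + 1) := by
    have := h.dg i le_rfl
    rw [hae, S.dg_mul hz h.ne, h.dz, pow_succ]
    simp only [Nat.sub_self, pow_zero] at this
    omega
  have ha : Odd (S.dg a) := ⟨2 ^ i - 1, by rw [pow_succ] at hd; omega⟩
  set Γ' := (Γ.map (algebraMap O (QuadraticAlgebra O a 1))).update (i + 1) QuadraticAlgebra.omega with hΓ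
  have c1 : ∀ j ≤ i, Γ'.coeff j = algebraMap O (QuadraticAlgebra O a 1) (Γ.coeff j) := fun j hj => by
    rw [hΓ, coeff_update_apply, if_neg (by omega), coeff_map]
  have c2 : Γ'.coeff (i + 1) = QuadraticAlgebra.omega := coeff_update_same _ _ _
  have dec : ∀ u : (QuadraticAlgebra O a 1), u = algebraMap O (QuadraticAlgebra O a 1) u.re + algebraMap O (QuadraticAlgebra O a 1) u.im * QuadraticAlgebra.omega :=
    fun u => by ext <;> simp
  refine ⟨ha, ⟨by rw [c1 0 (by omega), h.rel.1, map_one], fun j hj => ?_⟩, ?_, fun j hj => ?_, ?_,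
    fun B _ _ z' Γ'' hr => ?_, fun B _ _ ψ ψ' h1 h2 => ?_, fun B _ _ T ψ c h1 h2 u => ?_⟩
  · rcases (Nat.lt_succ_iff.1 hj).eq_or_lt with rfl | hj'
    · rw [c2, c1 j le_rfl, sq, QuadraticAlgebra.omega_mul_omega_eq_algebraMap, map_one,
        one_mul, ← map_mul, ← hae]
    · rw [c1 j hj'.le, c1 _ hj', ← map_pow, h.rel.2 j hj', map_add, map_mul]
  · rw [dg_map, h.dz, pow_succ']
  · rcases hj.eq_or_lt with rfl | hj'
    · rw [c2, dg_om, Nat.sub_self, pow_zero, hd]
    · have hj := Nat.lt_succ_iff.1 hj'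
      rw [c1 j hj, dg_map, Nat.succ_sub hj, pow_succ', pow_succ', ← h.dg j hj, mul_add]
  · have := S.isDomain
    rw [c2]
    intro e
    simpa using congrArg QuadraticAlgebra.im e
  · obtain ⟨ψ, p1, p2⟩ := h.lift B z' Γ'' ⟨hr.1, fun j hj => hr.2 j (by omega)⟩
    have p3 := hr.2 i i.lt_succ_self
    rw [← p1, ← p2 i le_rfl, ← map_mul, ← hae] at p3
    refine ⟨{ toFun u := ψ u.re + ψ u.im * Γ''.coeff (i + 1)
              map_one' := by simp [QuadraticAlgebra.re_one, QuadraticAlgebra.im_one]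
              map_mul' u v := ?_
              map_zero' := by simp
              map_add' u v := by
                simp only [QuadraticAlgebra.re_add, QuadraticAlgebra.im_add, map_add]; ring
              commutes' r := by
                rw [IsScalarTower.algebraMap_apply k O (QuadraticAlgebra O a 1)]; simp }, by simpa using p1, fun j hj => ?_⟩
    · simp only [QuadraticAlgebra.re_mul, QuadraticAlgebra.im_mul, map_add, map_mul, map_one]
      linear_combination (-ψ u.im * ψ v.im) * p3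
    · rcases hj.eq_or_lt with rfl | hj'
      · simp [c2]
      · simpa [c1 j (Nat.lt_succ_iff.1 hj')] using p2 j (Nat.lt_succ_iff.1 hj')
  · have e := h.ext B (ψ.comp (IsScalarTower.toAlgHom k O (QuadraticAlgebra O a 1))) (ψ'.comp (IsScalarTower.toAlgHom k O (QuadraticAlgebra O a 1)))
      h1 fun j hj => by simpa [c1 j hj] using h2 j (by omega)
    have e1 : ∀ r, ψ (algebraMap O (QuadraticAlgebra O a 1) r) = ψ' (algebraMap O (QuadraticAlgebra O a 1) r) := fun r => DFunLike.congr_fun e r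
    have e2 := h2 _ le_rfl
    rw [c2] at e2
    ext u
    rw [dec u, map_add, map_add, map_mul, map_mul, e1, e1, e2]
  · have e : ∀ r, T.dg (ψ (algebraMap O (QuadraticAlgebra O a 1) r)) ≤ c * 2 * S.dg r :=
      h.mono B T (ψ.comp (IsScalarTower.toAlgHom k O (QuadraticAlgebra O a 1))) (c * 2)
        (by rw [mul_assoc, ← dg_map S ha]; exact h1)
        fun j hj => by rw [mul_assoc, ← dg_map S ha, ← c1 j hj]; simpa [c1 j hj] using h2 j (by omega)
    have e2 := h2 _ le_rfl
    rw [c2, dg_om] at e2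
    conv_lhs => rw [dec u, map_add, map_mul]
    refine dg_add_le T ((e _).trans ?_) ?_
    · rw [mul_assoc]
      exact Nat.mul_le_mul_left c (dg_re S ha u)
    · rcases eq_or_ne u.im 0 with h0 | h0
      · simp [h0, T.dg_zero]
      · refine (dg_mul_le T _ _).trans (((add_le_add (e _) e2).trans ?_).trans
          (Nat.mul_le_mul_left c (dg_im S ha u h0)))
        exact le_of_eq (by ring)

theorem tower (k : Type) [Field k] (i : ℕ) : ∃ (O : Type) (_ : CommRing O) (_ : Algebra k O)
    (S : DegStr k O) (z : O) (Γ : O[X]), Lvl S i z Γ := by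
  induction i with
  | zero => exact ⟨_, _, _, _, _, _, lvl_zero k⟩
  | succ i ih =>
    obtain ⟨O, _, _, S, z, Γ, h⟩ := ih
    obtain ⟨ha, h'⟩ := lvl_succ h rfl
    exact ⟨_, _, _, _, _, _, h'⟩

end Pool.Agent.Lib.MP_f6c7cf_nt.SI
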