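import Pool.Agent.Lib.MP_f6c7cf_nt.SI.Four

/-! The elements of proper subfields and those with an atypical free part are few. -/

namespace Pool.Agent.Lib.MP_f6c7cf_nt.SI

open Polynomial Finset
open scoped Classical

theorem monic_cp (n : ℕ) (x : Om) : (cp n x).Monic := (minpoly.monic (integral x)).pow _

theorem natDegree_cp {n : ℕ} {x : Om} (hx : x ^ 2 ^ n = x) : (cp n x).natDegree = n := by
  rw [← natDegree_map (algebraMap _ Om), map_cp hx,
    natDegree_prod_of_monic _ _ fun j _ => monic_X_sub_C _]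
  simp only [natDegree_X_sub_C]
  simp

theorem card_sub {n : ℕ} (hn : 0 < n) :
    (#{x ∈ FQ n | (minpoly (ZMod 2) x).natDegree ≠ n} : ℝ) ≤ n * √2 ^ n := by
  have h1 : {x ∈ FQ n | (minpoly (ZMod 2) x).natDegree ≠ n} ⊆ (Icc 1 (n / 2)).biUnion FQ := by
    intro x hx
    obtain ⟨h1, h2⟩ := mem_filter.1 hx
    have h3 := natDegree_cp ((mem_FQ hn).1 h1)
    have h4 := minpoly.natDegree_pos (integral x)
    rw [cp, natDegree_pow] at h3
    obtain ⟨Q, hQ⟩ := ((minpoly.irreducible (integral x)).natDegree_dvd_iff_dvd_X_pow_card_pow_sub_X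
      (n := (minpoly (ZMod 2) x).natDegree)).1 dvd_rfl
    refine mem_biUnion.2 ⟨_, mem_Icc.2 ⟨h4, ?_⟩, (mem_FQ h4).2 ?_⟩
    · generalize (minpoly (ZMod 2) x).natDegree = d at *
      generalize n / d = q at h3
      rcases q with _ | _ | q
      · omega
      · omega
      · rw [Nat.le_div_iff_mul_le two_pos]
        nlinarith
    · simpa [sub_eq_zero] using congrArg (aeval x) hQ
  have h2 := (card_le_card h1).trans card_biUnion_le
  refine (Nat.cast_le.2 h2).trans ?_
  push_cast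
  refine (sum_le_card_nsmul _ _ (√2 ^ n) fun j hj => ?_).trans ?_
  · obtain ⟨j1, j2⟩ := mem_Icc.1 hj
    rw [card_FQ j1]
    push_cast
    calc (2 : ℝ) ^ j = √2 ^ (2 * j) := by rw [pow_mul, Real.sq_sqrt two_pos.le]
      _ ≤ _ := pow_le_pow_right₀ (Real.one_le_sqrt.2 one_le_two) (by omega)
  · rw [nsmul_eq_mul, Nat.card_Icc]
    gcongr
    omega

variable {A n : ℕ} {f : (ZMod 2)[X]}

/-- the free digits at which two polynomials differ -/
noncomputable def fr (A n : ℕ) (f g : (ZMod 2)[X]) : Finset ℕ :=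
  {j ∈ Ioo (2 * A) n | g.coeff j ≠ f.coeff j}

theorem eq_of_fr {g g' : (ZMod 2)[X]} (m : g.Monic) (m' : g'.Monic) (d : g.natDegree = n)
    (d' : g'.natDegree = n) (h : cl (2 * A + 1) g = cl (2 * A + 1) g')
    (h' : fr A n f g = fr A n f g') : g = g' := by
  ext j
  rcases le_or_gt j (2 * A) with h1 | h1
  · exact sub_eq_zero.1 ((coeff_sub _ _ _).symm.trans
      (X_pow_dvd_iff.1 (AdjoinRoot.mk_eq_mk.1 h) j (by omega)))
  rcases lt_trichotomy j n with h2 | rfl | h2
  · have := Finset.ext_iff.1 h' j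
    simp only [fr, mem_filter, mem_Ioo, h1, h2, true_and] at this
    revert this
    generalize g.coeff j = a, g'.coeff j = b, f.coeff j = c
    decide +revert
  · rw [← d, m.coeff_natDegree, d, ← d', m'.coeff_natDegree]
  · rw [coeff_eq_zero_of_natDegree_lt (d ▸ h2), coeff_eq_zero_of_natDegree_lt (d' ▸ h2)]

theorem card_support (hf : f.Monic) (hn : f.natDegree = n) {g : (ZMod 2)[X]} (m : g.Monic)
    (d : g.natDegree = n) {y : Fin A → ZMod 2}
    (h : cl (2 * A + 1) g = cl (2 * A + 1) (f.update 0 1 + pol y)) :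
    #(g - f).support ≤ #{i | y i ≠ 0} + #(fr A n f g) + 1 := by
  have : (g - f).support ⊆ insert 0 (({i | y i ≠ 0} : Finset (Fin A)).image (fun i : Fin A => A + 1 + i)
      ∪ fr A n f g) := fun j hj => by
    rw [mem_support_iff, coeff_sub, sub_ne_zero] at hj
    rcases eq_or_ne j 0 with rfl | h0
    · exact mem_insert_self _ _
    refine mem_insert_of_mem (mem_union.2 ?_)
    rcases le_or_gt j (2 * A) with h1 | h1
    · have := X_pow_dvd_iff.1 (AdjoinRoot.mk_eq_mk.1 h) j (by omega)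
      rw [coeff_sub, coeff_add, coeff_update_apply, if_neg h0] at this
      obtain ⟨i, h2, h3⟩ := of_coeff_pol (y := y) (j := j) fun e =>
        hj (by rwa [e, add_zero, sub_eq_zero] at this)
      exact Or.inl (mem_image.2 ⟨i, by simpa using h2, h3⟩)
    · refine Or.inr (mem_filter.2 ⟨mem_Ioo.2 ⟨h1, ?_⟩, hj⟩)
      by_contra h2
      rcases (not_lt.1 h2).eq_or_lt with rfl | h3
      · rw [← d, m.coeff_natDegree, d, ← hn, hf.coeff_natDegree] at hj
        exact hj rfl
      · rw [coeff_eq_zero_of_natDegree_lt (d ▸ h3), coeff_eq_zero_of_natDegree_lt (hn ▸ h3)] at hj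
        exact hj rfl
  exact (card_le_card this).trans ((card_insert_le _ _).trans (Nat.succ_le_succ
    ((card_union_le _ _).trans (Nat.add_le_add_right card_image_le _))))

theorem card_cls (hf : f.Monic) (hn : f.natDegree = n) (hn0 : 0 < n) {D θ : ℕ}
    (H : ∀ g : (ZMod 2)[X], Irreducible g → g.natDegree = n → D < #(g - f).support)
    {y : Fin A → ZMod 2} (hy : #{i | y i ≠ 0} + θ ≤ D) : #(cls n (f.update 0 1) y) ≤
      #{x ∈ cls n (f.update 0 1) y | (minpoly (ZMod 2) x).natDegree ≠ n}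
        + n * #{b ∈ (Ioo (2 * A) n).powerset | θ ≤ #b} := by
  rw [← card_filter_add_card_filter_not (s := cls n (f.update 0 1) y)
    fun x => (minpoly (ZMod 2) x).natDegree ≠ n]
  have key : ∀ x ∈ {x ∈ cls n (f.update 0 1) y | ¬(minpoly (ZMod 2) x).natDegree ≠ n},
      cp n x = minpoly (ZMod 2) x ∧ (cp n x).natDegree = n ∧
        cl (2 * A + 1) (cp n x) = cl (2 * A + 1) (f.update 0 1 + pol y) := fun x hx => by
    obtain ⟨h1, h2⟩ := mem_filter.1 hx
    obtain ⟨h3, h4⟩ := mem_filter.1 h1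
    exact ⟨by rw [cp, not_not.1 h2, Nat.div_self hn0, pow_one],
      natDegree_cp ((mem_FQ hn0).1 h3), h4⟩
  refine Nat.add_le_add_left (card_le_mul_card_image_of_maps_to (f := fun x => fr A n f (cp n x))
    (fun x hx => mem_filter.2 ⟨mem_powerset.2 (filter_subset _ _), ?_⟩) n fun b _ => ?_) _
  · obtain ⟨k1, k2, k3⟩ := key x hx
    have h1 := H _ (k1 ▸ minpoly.irreducible (integral x)) k2
    have h2 := card_support hf hn (monic_cp n x) k2 k3
    omega
  · rcases Finset.eq_empty_or_nonempty {x ∈ {x ∈ cls n (f.update 0 1) y |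
      ¬(minpoly (ZMod 2) x).natDegree ≠ n} | fr A n f (cp n x) = b} with h | ⟨x₀, h⟩
    · simp only [h, card_empty, zero_le]
    obtain ⟨h1, h2⟩ := mem_filter.1 h
    obtain ⟨-, k2, k3⟩ := key x₀ h1
    refine le_trans (card_le_card (t := ((cp n x₀).aroots Om).toFinset) fun x hx => ?_)
      ((Multiset.toFinset_card_le _).trans ((card_roots' _).trans (natDegree_map_le.trans k2.le)))
    obtain ⟨h3, h4⟩ := mem_filter.1 hx
    obtain ⟨l1, l2, l3⟩ := key x h3
    rw [← eq_of_fr (monic_cp n x) (monic_cp n x₀) l2 k2 (l3.trans k3.symm) (h4.trans h2.symm),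
      Multiset.mem_toFinset, mem_aroots]
    exact ⟨(monic_cp n x).ne_zero, by rw [l1, minpoly.aeval]⟩

theorem upper (hf : f.Monic) (hn : f.natDegree = n) (hn0 : 0 < n) {D θ : ℕ}
    (H : ∀ g : (ZMod 2)[X], Irreducible g → g.natDegree = n → D < #(g - f).support)
    {Φ κ : (Fin A → ZMod 2) → ℝ} {M : ℝ} (h0 : ∀ y, 0 ≤ κ y) (h1 : ∀ y, κ y ≤ M)
    (h2 : ∀ y, Φ y ≤ κ y) (h3 : ∀ y, D < #{i | y i ≠ 0} + θ → Φ y ≤ 0) :
    ∑ y, Φ y * #(cls n (f.update 0 1) y) ≤ M * (n * √2 ^ n)
      + (∑ y, κ y) * (n * #{b ∈ (Ioo (2 * A) n).powerset | θ ≤ #b}) := by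
  set S : (Fin A → ZMod 2) → Finset Om := fun y =>
    {x ∈ cls n (f.update 0 1) y | (minpoly (ZMod 2) x).natDegree ≠ n}
  have hM := (h0 0).trans (h1 0)
  have e1 : ∑ y, (#(S y) : ℝ) ≤ n * √2 ^ n := by
    refine le_trans ?_ (card_sub hn0)
    rw [← Nat.cast_sum, Nat.cast_le, ← card_biUnion]
    · exact card_le_card (biUnion_subset.2 fun y _ =>
        monotone_filter_left _ (filter_subset _ _))
    · refine fun y _ y' _ hy => disjoint_left.2 fun x p q => hy ?_
      have := (mem_filter.1 (mem_filter.1 p).1).2.symm.trans (mem_filter.1 (mem_filter.1 q).1).2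
      rw [map_add, map_add, add_right_inj] at this
      refine sub_eq_zero.1 (cl_pol_eq_zero ?_)
      have e := congrArg (cl (2 * A + 1)) (pol_add (y - y') y')
      rw [sub_add_cancel, map_add, this] at e
      exact left_eq_add.1 (e.trans (add_comm _ _))
  refine le_trans (sum_le_sum (g := fun y => M * #(S y)
    + κ y * (n * #{b ∈ (Ioo (2 * A) n).powerset | θ ≤ #b})) fun y _ => ?_) ?_
  · have := h0 y
    rcases lt_or_ge D (#{i | y i ≠ 0} + θ) with h | h
    · exact (mul_nonpos_of_nonpos_of_nonneg (h3 y h) (by positivity)).trans (by positivity)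
    · have e : (#(cls n (f.update 0 1) y) : ℝ) ≤ #(S y)
          + n * #{b ∈ (Ioo (2 * A) n).powerset | θ ≤ #b} := by exact_mod_cast card_cls hf hn hn0 H h
      refine (mul_le_mul (h2 y) e (by positivity) this).trans ?_
      rw [mul_add]
      gcongr
      exact h1 y
  · rw [sum_add_distrib, ← mul_sum, ← sum_mul]
    gcongr

end Pool.Agent.Lib.MP_f6c7cf_nt.SI
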