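import Pool.Agent.Lib.MP_f6c7cf_nt.SI.Count
import Pool.Agent.Lib.MP_639284_nt.Class
import Pool.Agent.Lib.MP_639284_nt.Euler

/-! The bound of Weil for characters modulo `X ^ m` over the field with two elements. -/

namespace Pool.Agent.Lib.MP_f6c7cf_nt.SI

open Polynomial Finset Filter
open Pool.Agent.Lib.MP_639284_nt Pool.Agent.Lib.MP_639284_nt.Class
open Pool.Agent.Shared.HasseDavenport (mon mem_mon)

theorem norm_chi {R : Type} [CommRing R] [Finite R] (χ : MulChar R ℂ) (r : R) :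
    ‖χ r‖ = (1 : MulChar R ℝ) r := by
  by_cases h : IsUnit r
  · obtain ⟨u, rfl⟩ := h
    rw [MulChar.one_apply_coe]
    refine Complex.norm_eq_one_of_pow_eq_one ?_ (Nat.card_pos (α := Rˣ)).ne'
    rw [← map_pow, ← Units.val_pow_eq_pow_val, pow_card_eq_one', Units.val_one, map_one]
  · simp [MulChar.map_nonunit _ h]

theorem units_ge {i s : ℕ} (hs : 0 < s) :
    (2 : ℝ) ^ s - 1 ≤ ∑ x ∈ FQ s, (1 : MulChar (Rm (i + 1)) ℝ) (cl (i + 1) (cp s x)) := by
  classical
  have h0 : (0 : Om) ∈ FQ s := (mem_FQ hs).2 (by simp)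
  rw [← add_sum_erase _ _ h0, ← norm_chi 1, sum_congr rfl fun x hx => MulChar.one_apply
    (isUnit_cl.2 (coeff_cp ((mem_FQ hs).1 (mem_of_mem_erase hx)) (ne_of_mem_erase hx))),
    sum_const, card_erase_of_mem h0, card_FQ hs, nsmul_eq_mul, mul_one,
    Nat.cast_sub Nat.one_le_two_pow]
  push_cast
  exact le_add_of_nonneg_left (norm_nonneg _)

theorem even_bound {i : ℕ} {χ : MulChar (Rm (i + 1)) ℂ} (hχ : χ ≠ 1) : ∃ c : ℝ, ∀ᶠ s in atTop,
    ‖∑ x ∈ FQ (s * 2), χ (cl (i + 1) (cp (s * 2) x))‖ ≤ c * 2 ^ s := by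
  classical
  obtain ⟨c, hc⟩ := count i
  refine ⟨c + 1, ?_⟩
  filter_upwards [hc, eventually_gt_atTop 0] with s hs hs0
  set M : Rm (i + 1) → ℕ := fun r => #{x ∈ FQ (s * 2) | cl (i + 1) (cp (s * 2) x) = r}
  set g := Nat.card (Rm (i + 1))ˣ
  have hg : (0 : ℝ) < g := Nat.cast_pos.2 Nat.card_pos
  have h1 : ∑ x ∈ FQ (s * 2), χ (cl (i + 1) (cp (s * 2) x)) = ∑ r, M r * χ r := by
    rw [← sum_fiberwise' _ (fun x => cl (i + 1) (cp (s * 2) x)) χ]
    simp [M]
  have h2 := units_ge (i := i) (s := s * 2) (by omega)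
  rw [← sum_fiberwise' _ (fun x => cl (i + 1) (cp (s * 2) x)) (1 : MulChar (Rm (i + 1)) ℝ)] at h2
  simp only [sum_const, nsmul_eq_mul] at h2
  set D : ℝ := 2 ^ (s * 2) + c * 2 ^ s with hD
  have h3 : g * ∑ r, M r * χ r = ∑ r, χ r * ((g : ℝ) * M r - D : ℝ) := by
    simp only [Complex.ofReal_sub, mul_sub, sum_sub_distrib, ← sum_mul,
      MulChar.sum_eq_zero_of_ne_one hχ, mul_sum]
    simp [mul_assoc, mul_comm]
  have h4 : ∀ r, ‖χ r * ((g : ℝ) * M r - D : ℝ)‖ = D * (1 : MulChar (Rm (i + 1)) ℝ) r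
      - g * (M r * (1 : MulChar (Rm (i + 1)) ℝ) r) := fun r => by
    rw [norm_mul, norm_chi]
    by_cases h : IsUnit r
    · have : (g : ℝ) * M r ≤ D := by rw [hD]; exact_mod_cast hs r h
      rw [Complex.norm_real, Real.norm_of_nonpos (sub_nonpos.2 this)]
      ring
    · simp [MulChar.map_nonunit _ h]
  have h5 := norm_sum_le univ fun r => χ r * ((g : ℝ) * M r - D : ℝ)
  simp only [h4, sum_sub_distrib, ← mul_sum, MulChar.sum_one_eq_card_units,
    ← Nat.card_eq_fintype_card] at h5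
  rw [← h3, norm_mul, Complex.norm_natCast] at h5
  rw [h1]
  refine le_of_mul_le_mul_left (h5.trans ?_) hg
  have h6 : (1 : ℝ) ≤ 2 ^ s := one_le_pow₀ one_le_two
  have h7 := mul_le_mul_of_nonneg_left h2 hg.le
  have h8 := mul_le_mul_of_nonneg_left h6 hg.le
  simp only [M, g] at *
  linarith

theorem sum_mon {m n : ℕ} {χ : MulChar (Rm m) ℂ} (hχ : χ ≠ 1) (hn : m ≤ n) :
    ∑ P ∈ mon (ZMod 2) n, χ (cl m P) = 0 := by
  obtain ⟨u, hu⟩ := MulChar.ne_one_iff.1 hχ
  obtain ⟨H, hH⟩ := AdjoinRoot.mk_surjective (u : Rm m)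
  have hX := monic_X_pow (R := ZMod 2) m
  let T : (ZMod 2)[X] → (ZMod 2)[X] := fun P => P + ((H - 1) * P) %ₘ X ^ m
  have h1 : ∀ P, cl m (T P) = u * cl m P := fun P => by
    have : cl m (((H - 1) * P) %ₘ X ^ m) = cl m ((H - 1) * P) :=
      AdjoinRoot.mk_eq_mk.2 (by rw [modByMonic_eq_sub_mul_div]; simp)
    rw [map_add, this, map_mul, map_sub, hH, map_one]
    ring
  have h2 : ∀ P ∈ mon (ZMod 2) n, T P ∈ mon (ZMod 2) n := fun P hP => by
    obtain ⟨p1, p2⟩ := mem_mon.1 hP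
    have : (((H - 1) * P) %ₘ X ^ m).degree < P.degree := by
      refine (degree_modByMonic_lt _ hX).trans_le ?_
      rw [degree_X_pow, degree_eq_natDegree p1.ne_zero, p2, Nat.cast_le]
      exact hn
    exact mem_mon.2 ⟨p1.add_of_left this, by rw [natDegree_add_eq_left_of_degree_lt this, p2]⟩
  have h3 : Function.Injective T := fun P Q h => by
    have e := congrArg (cl m) h
    rw [h1, h1, u.mul_right_inj, AdjoinRoot.mk_eq_mk] at e
    have e' : ((H - 1) * P) %ₘ X ^ m = ((H - 1) * Q) %ₘ X ^ m :=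
      modByMonic_eq_of_dvd_sub hX (by rw [← mul_sub]; exact e.mul_left _)
    simpa [T, e'] using h
  refine eq_zero_of_mul_eq_self_left hu ?_
  rw [mul_sum]
  refine sum_nbij T h2 h3.injOn (surjOn_of_injOn_of_card_le _ h2 h3.injOn le_rfl) fun P _ => ?_
  rw [h1, map_mul]

theorem factor (n : ℕ) : ∀ L : ℂ[X], L.natDegree ≤ n → L.coeff 0 = 1 →
    ∃ γ : ℕ → ℂ, L = ∏ j ∈ range n, (1 - C (γ j) * X) := by
  induction n with
  | zero => exact fun L h h0 => ⟨0, by rw [eq_C_of_natDegree_le_zero h, h0]; simp⟩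
  | succ n ih =>
    intro L h h0
    have key : ∀ (a : ℂ) (L' : ℂ[X]), L = L' * (1 - C a * X) → L'.natDegree ≤ n →
        ∃ γ : ℕ → ℂ, L = ∏ j ∈ range (n + 1), (1 - C (γ j) * X) := fun a L' e hL => by
      obtain ⟨γ, hγ⟩ := ih L' hL (by simpa [e] using h0)
      refine ⟨Function.update γ n a, ?_⟩
      rw [prod_range_succ, Function.update_self, e, hγ]
      congr 1
      exact prod_congr rfl fun j hj => by rw [Function.update_of_ne (mem_range.1 hj).ne]
    rcases h.eq_or_lt with e | e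
    · obtain ⟨ρ, hρ⟩ := Complex.exists_root (natDegree_pos_iff_degree_pos.1 (by omega : 0 < L.natDegree))
      obtain ⟨L', hL⟩ := dvd_iff_isRoot.2 hρ
      have r0 : ρ ≠ 0 := by rintro rfl; simp [hL] at h0
      have l0 : L' ≠ 0 := by rintro rfl; simp [hL] at h0
      refine key ρ⁻¹ (C (-ρ) * L') ?_ ((natDegree_C_mul_le _ _).trans ?_)
      · have : (C ρ * C ρ⁻¹ : ℂ[X]) = 1 := by rw [← C_mul, mul_inv_cancel₀ r0, C_1]
        rw [hL, C_neg]
        linear_combination (-X * L') * this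
      · rw [hL, natDegree_mul (X_sub_C_ne_zero _) l0, natDegree_X_sub_C] at e
        omega
    · exact key 0 L (by simp) (by omega)

theorem power_sum {m : ℕ} {χ : MulChar (Rm m) ℂ} (hχ : χ ≠ 1) : ∃ γ : ℕ → ℂ, ∀ s, 0 < s →
    ∑ x ∈ FQ s, χ (cl m (cp s x)) = -∑ j ∈ range m, γ j ^ s := by
  set W : (ZMod 2)[X] → ℂ := fun P => χ (cl m P)
  have w1 : W 1 = 1 := by simp [W]
  have e1 := ld_of ((euler (ZMod 2) (ZMod 2)[X] Om (lineStr _)).2.2 (wt W)
    (by rw [← Ideal.span_singleton_one, wt_span W monic_one, w1]) fun I J hI hJ => by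
      obtain ⟨P, hP, rfl⟩ := exists_monic hI
      obtain ⟨Q, hQ, rfl⟩ := exists_monic hJ
      rw [Ideal.span_singleton_mul_span_singleton, wt_span W hP, wt_span W hQ,
        wt_span W (hP.mul hQ)]
      simp [W])
  have a0 : aSum (ZMod 2) (wt W) 0 = 1 := by
    rw [aSum_zero (lineStr _), ← Ideal.span_singleton_one, wt_span W monic_one, w1]
  have e2 : PowerSeries.mk (aSum (ZMod 2) (wt W))
      = (PowerSeries.trunc (m + 1) (PowerSeries.mk (aSum (ZMod 2) (wt W))) : ℂ[X]) := by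
    ext n
    rw [coeff_coe, PowerSeries.coeff_trunc]
    split_ifs with h
    · rfl
    · rw [PowerSeries.coeff_mk, aSum_wt, sum_mon hχ (by omega)]
  obtain ⟨γ, hγ⟩ := factor m (PowerSeries.trunc (m + 1) (PowerSeries.mk (aSum (ZMod 2) (wt W))))
    (Nat.lt_succ_iff.1 (PowerSeries.natDegree_trunc_lt _ _)) (by simp [PowerSeries.coeff_trunc, a0])
  refine ⟨γ, fun s hs => ?_⟩
  have e3 := ld_prod (range m) γ
  have e4 : (∏ j ∈ range m, (1 - PowerSeries.C (γ j) * PowerSeries.X) : PowerSeries ℂ) =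
      PowerSeries.mk (aSum (ZMod 2) (wt W)) := by
    rw [e2, hγ, ← Polynomial.coeToPowerSeries.ringHom_apply, map_prod]
    simp
  rw [e4] at e3
  have e5 := congrArg (PowerSeries.coeff s) (mul_right_cancel₀ (fun h0 => by
    simpa [a0] using congrArg (PowerSeries.coeff 0) h0) (e1.symm.trans e3))
  simp only [ser, PowerSeries.coeff_mk, if_neg hs.ne'] at e5
  rw [← e5, gSum_wt Om W hs, ← finsum_mem_coe_finset, Nat.card_zmod]
  exact finsum_mem_congr (Set.ext fun x => mem_FQ hs) fun x _ => by simp [W, cp]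

theorem root_le {a : ℂ} {r : ℝ} (hr : 0 < r) (T : Finset ℕ) (γ : ℕ → ℂ) (h : ∀ j ∈ T, γ j ≠ a) :
    ∀ (b : ℂ) (c : ℕ → ℂ) (D : ℝ), b ≠ 0 →
      (∀ᶠ n in atTop, ‖b * a ^ n + ∑ j ∈ T, c j * γ j ^ n‖ ≤ D * r ^ n) → ‖a‖ ≤ r := by
  induction T using Finset.induction_on with
  | empty =>
    intro b c D hb H
    by_contra h'
    obtain ⟨n, h1, h2⟩ := (H.and ((tendsto_pow_atTop_atTop_of_one_lt
      ((one_lt_div hr).2 (not_le.1 h'))).eventually_gt_atTop (D / ‖b‖))).exists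
    rw [div_pow, div_lt_div_iff₀ (norm_pos_iff.2 hb) (pow_pos hr n)] at h2
    rw [sum_empty, add_zero, norm_mul, norm_pow] at h1
    linarith
  | insert j T hj ih =>
    intro b c D hb H
    refine ih (fun l hl => h l (mem_insert_of_mem hl)) (b * (a - γ j)) (fun l => c l * (γ l - γ j))
      (D * r + ‖γ j‖ * D) (mul_ne_zero hb (sub_ne_zero.2 (h j (mem_insert_self _ _)).symm)) ?_
    filter_upwards [H, (tendsto_add_atTop_nat 1).eventually H] with n h1 h2
    have e : b * (a - γ j) * a ^ n + ∑ l ∈ T, c l * (γ l - γ j) * γ l ^ n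
        = (b * a ^ (n + 1) + ∑ l ∈ insert j T, c l * γ l ^ (n + 1))
          - γ j * (b * a ^ n + ∑ l ∈ insert j T, c l * γ l ^ n) := by
      have : ∑ l ∈ T, c l * (γ l - γ j) * γ l ^ n
          = ∑ l ∈ T, c l * γ l ^ (n + 1) - γ j * ∑ l ∈ T, c l * γ l ^ n := by
        rw [mul_sum, ← sum_sub_distrib]
        exact sum_congr rfl fun l _ => by ring
      rw [this, sum_insert hj, sum_insert hj]
      ring
    rw [e]
    refine (norm_sub_le _ _).trans ?_
    rw [norm_mul]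
    have := mul_le_mul_of_nonneg_left h1 (norm_nonneg (γ j))
    rw [pow_succ r] at h2
    linarith

theorem weil {i n : ℕ} {χ : MulChar (Rm (i + 1)) ℂ} (hχ : χ ≠ 1) (hn : 0 < n) :
    ‖∑ x ∈ FQ n, χ (cl (i + 1) (cp n x))‖ ≤ (i + 1) * √2 ^ n := by
  classical
  obtain ⟨γ, hγ⟩ := power_sum hχ
  obtain ⟨c, hc⟩ := even_bound hχ
  have key : ∀ j ∈ range (i + 1), ‖γ j‖ ≤ √2 := fun j hj => by
    have := root_le (a := γ j ^ 2) two_pos {l ∈ range (i + 1) | ¬γ l ^ 2 = γ j ^ 2}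
      (fun l => γ l ^ 2) (fun l hl => (mem_filter.1 hl).2)
      #{l ∈ range (i + 1) | γ l ^ 2 = γ j ^ 2} 1 c
      (Nat.cast_ne_zero.2 (card_ne_zero_of_mem (mem_filter.2 ⟨hj, rfl⟩))) (by
        filter_upwards [hc, eventually_gt_atTop 0] with s h1 h2
        rw [hγ _ (by omega), norm_neg, ← sum_filter_add_sum_filter_not _ fun l => γ l ^ 2 = γ j ^ 2,
          sum_congr rfl (g := fun _ => (γ j ^ 2) ^ s) fun l hl => by
            rw [mul_comm, pow_mul, (mem_filter.1 hl).2]] at h1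
        simpa [← pow_mul, mul_comm] using h1)
    rw [norm_pow] at this
    exact Real.le_sqrt_of_sq_le this
  rw [hγ n hn, norm_neg]
  refine (norm_sum_le _ _).trans ((sum_le_card_nsmul _ _ (√2 ^ n) fun j hj => ?_).trans ?_)
  · rw [norm_pow]
    exact pow_le_pow_left₀ (norm_nonneg _) (key j hj) n
  · simp

end Pool.Agent.Lib.MP_f6c7cf_nt.SI
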